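import Pool.Agent.Lib_MP_a23b08_t.TDef
import Pool.Agent.Lib_MP_a23b08_al.St

/-!
# MP_a23b08_al, part T: interface of T1 (tilt theorem), T3 (Euler form) and T2
-/

open CategoryTheory CategoryTheory.Limits CategoryTheory.Triangulated
  CategoryTheory.Pretriangulated

universe v u

namespace EGr

section
variable {D : Type u} [Category.{v} D] [Preadditive D] [HasZeroObject D] [HasShift D ℤ]
  [∀ n : ℤ, (shiftFunctor D n).Additive] [Pretriangulated D]

/-- `X` lists the simple objects of the heart of `t`, each one once up to isomorphism. -/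
structure SList (t : TStructure D) {n : ℕ} (X : Fin n → D) : Prop where
  simple : ∀ i, SimpleIn t (X i)
  inj : ∀ i j, Nonempty (X i ≅ X j) → i = j
  all : ∀ S : D, SimpleIn t S → ∃ i, Nonempty (S ≅ X i)

/-- `cls` is additive on distinguished triangles. -/
def IsAdd (cls : D → Fin 6 → ℤ) : Prop :=
  ∀ T ∈ distTriang D, cls T.obj₂ = cls T.obj₁ + cls T.obj₃

end

section
variable (k : Type) [Field k] (D : Type u) [Category.{v} D] [Preadditive D] [HasZeroObject D]
  [HasShift D ℤ] [∀ n : ℤ, (shiftFunctor D n).Additive] [Pretriangulated D] [Linear k D]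

/-- `D` is Hom-finite and 3-Calabi–Yau on the level of dimensions. -/
structure CY3 : Prop where
  fin : ∀ X Y : D, Module.Finite k (X ⟶ Y)
  cy : ∀ (X Y : D) (m : ℤ), Module.finrank k (X ⟶ Y⟦m⟧) = Module.finrank k (Y ⟶ X⟦3 - m⟧)

/-- WANTED from T1: the forward tilt of a finite heart at a rigid simple object exists, is a finite
heart, with explicit classes of the simple objects. -/
def TiltStmt : Prop :=
  ∀ (t : TStructure D), IsFiniteHeart t → ∀ (n : ℕ) (X : Fin n → D), SList t X → ∀ i : Fin n,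
    (∀ f : X i ⟶ (X i)⟦(1 : ℤ)⟧, f = 0) →
    ∃ (t' : TStructure D) (X' : Fin n → D), IsFwdTilt t (X i) t' ∧ IsFiniteHeart t' ∧
      SList t' X' ∧ Nonempty (X' i ≅ (X i)⟦(1 : ℤ)⟧) ∧
      ∀ j, j ≠ i → ∀ cls : D → Fin 6 → ℤ, IsAdd cls →
        cls (X' j) = cls (X j) + (Module.finrank k (X j ⟶ (X i)⟦(1 : ℤ)⟧)) • cls (X i)

/-- WANTED from T1: the aisle of a forward tilt. -/
def LeStmt (D : Type u) [Category.{v} D] [Preadditive D] [HasZeroObject D]
    [HasShift D ℤ] [∀ n : ℤ, (shiftFunctor D n).Additive] [Pretriangulated D] : Prop :=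
  ∀ (t t' : TStructure D) (S : D), IsFiniteHeart t → IsFiniteHeart t' → IsFwdTilt t S t' →
    ∀ X : D, t'.le 0 X ↔ t.le 0 X ∧ ∀ f : X ⟶ S, f = 0

/-- WANTED from T3: the Euler form in terms of classes. -/
def EulerStmt (cls : D → Fin 6 → ℤ) : Prop :=
  ∀ (t : TStructure D), IsFiniteHeart t → ∀ S T : D, SimpleIn t S → SimpleIn t T →
    (Module.finrank k (S ⟶ T⟦(1 : ℤ)⟧) : ℤ) - Module.finrank k (T ⟶ S⟦(1 : ℤ)⟧) =
      MPa23.om (cls S) (cls T)

end

end EGr
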