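import Pool.Agent.Lib_MP_a23b08_t.TMain

/-!
# MP_a23b08_al, part T: the tilt theorem with the mutation data, the dimensions of `Ext¹` after a tilt,
and the backward step with non-degeneracy of the target only
-/

set_option linter.unusedSectionVars false
set_option linter.unusedVariables false

open CategoryTheory CategoryTheory.Limits CategoryTheory.Triangulated
  CategoryTheory.Pretriangulated

universe v u

namespace EGr

open MPa23 ZeroObject

section
variable (k : Type) [Field k] {D : Type u} [Category.{v} D] [Preadditive D] [HasZeroObject D]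
  [HasShift D ℤ] [∀ n : ℤ, (shiftFunctor D n).Additive] [Pretriangulated D] [IsTriangulated D]
  [Linear k D]

/-- The tilt theorem with the mutation data. -/
theorem tilt_mut [IsAlgClosed k] (hfin : ∀ X Y : D, Module.Finite k (X ⟶ Y)) {t : TStructure D}
    (ht : IsFiniteHeart t) {n : ℕ} {X : Fin n → D} (hX : SList t X) (i : Fin n)
    (hi : ∀ f : X i ⟶ (X i)⟦(1 : ℤ)⟧, f = 0) :
    ∃ (t' : TStructure D) (X' : Fin n → D), IsFwdTilt t (X i) t' ∧ IsFiniteHeart t' ∧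
      SList t' X' ∧ MutData X X' i ∧ ∀ j, j ≠ i → ∀ cls : D → Fin 6 → ℤ, IsAdd cls →
        cls (X' j) = cls (X j) + (Module.finrank k (X j ⟶ (X i)⟦(1 : ℤ)⟧)) • cls (X i) := by
  have hM := hX.toSMList ht
  have hS : IsSMC X := hM.isSMC
  have hA1 : ∀ f : (X i)⟦(1 : ℤ)⟧ ⟶ (X i)⟦(1 : ℤ)⟧, ∃ c : k, f = c • 𝟙 _ := by
    have := hfin ((X i)⟦(1 : ℤ)⟧) ((X i)⟦(1 : ℤ)⟧)
    exact endo_scalar k (hS.hom_self i 1)
  have hex : ∀ j : Fin n, j ≠ i → ∃ (E Y : D) (a : E ⟶ Y) (b : Y ⟶ X j) (c : X j ⟶ E⟦(1 : ℤ)⟧),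
      Triangle.mk a b c ∈ distTriang D ∧
      Filt (isoTo (X i)) E ∧ (∀ f : Y ⟶ X i, f = 0) ∧ (∀ f : Y ⟶ (X i)⟦(1 : ℤ)⟧, f = 0) ∧
      ∀ cls : D → ℤ, AddZ cls → cls Y = cls (X j) + Module.finrank k (X j ⟶ (X i)⟦(1 : ℤ)⟧) • cls (X i) :=
    fun j hj => univ_ext k hi hA1 _ (X j) (hS.hom_ne j i hj) (hfin _ _) rfl
  choose! E Y a b c hT hE hY0 hY1 hcls using hex
  let X' : Fin n → D := fun j => if j = i then (X i)⟦(1 : ℤ)⟧ else Y j
  have hX'i : X' i = (X i)⟦(1 : ℤ)⟧ := if_pos rfl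
  have hX'j : ∀ j, j ≠ i → X' j = Y j := fun j hj => if_neg hj
  have hm : MutData X X' i := by
    refine ⟨⟨eqToIso hX'i⟩, ?_, ?_, ?_⟩
    · intro j hj
      rw [hX'j j hj]
      exact ⟨E j, a j, b j, c j, hT j hj, hE j hj⟩
    · intro j hj
      rw [hX'j j hj]
      exact hY0 j hj
    · intro j hj
      rw [hX'j j hj]
      exact hY1 j hj
  have hSM := (hm.isSMC hS).slist
  refine ⟨(hm.isSMC hS).tstr, X', ?_, hSM.isFiniteHeart, hSM.toSList, hm, ?_⟩
  · have h1 := hm.isFwdTilt hS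
    rwa [← hM.eq_tstr] at h1
  · intro j hj cls hadd
    funext q
    have h1 := hcls j hj (fun Z => cls Z q) (fun T hT => by
      change cls T.obj₂ q = cls T.obj₁ q + cls T.obj₃ q
      rw [hadd T hT]; rfl)
    rw [hX'j j hj]
    simpa using h1

/-- The tilt theorem for a given tilt: `S ≅ X i`. -/
theorem edge_mut [IsAlgClosed k] (hfin : ∀ X Y : D, Module.Finite k (X ⟶ Y)) {t t' : TStructure D}
    (ht : IsFiniteHeart t) (ht' : IsFiniteHeart t') {S : D} (h : IsFwdTilt t S t')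
    (hS : ∀ f : S ⟶ S⟦(1 : ℤ)⟧, f = 0) {n : ℕ} {X : Fin n → D} (hX : SList t X) :
    ∃ (i : Fin n) (X' : Fin n → D), Nonempty (S ≅ X i) ∧ SList t' X' ∧ MutData X X' i ∧
      ∀ j, j ≠ i → ∀ cls : D → Fin 6 → ℤ, IsAdd cls →
        cls (X' j) = cls (X j) + (Module.finrank k (X j ⟶ (X i)⟦(1 : ℤ)⟧)) • cls (X i) := by
  obtain ⟨i, ⟨e⟩⟩ := hX.all S h.1
  have hi : ∀ f : X i ⟶ (X i)⟦(1 : ℤ)⟧, f = 0 := by
    intro f
    have h1 := hS (e.hom ≫ f ≫ e.inv⟦(1 : ℤ)⟧')
    rw [← cancel_epi e.hom, ← cancel_mono (e.inv⟦(1 : ℤ)⟧'), Category.assoc, h1]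
    simp
  obtain ⟨t'', X', h1, h2, h3, h4, h5⟩ := tilt_mut k hfin ht hX i hi
  have : t' = t'' := fwdTilt_iso leStmt ht ht' h2 h h1 e
  subst this
  exact ⟨i, X', ⟨e⟩, h3, h4, h5⟩

end

section
variable {k : Type} [Field k] {D : Type u} [Category.{v} D] [Preadditive D] [HasZeroObject D]
  [HasShift D ℤ] [∀ n : ℤ, (shiftFunctor D n).Additive] [Pretriangulated D] [IsTriangulated D]
  [Linear k D]

theorem zero_of_hd (hfin : ∀ X Y : D, Module.Finite k (X ⟶ Y)) {X Y : D} {n : ℤ}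
    (h : hd k X Y n = 0) (f : X ⟶ Y⟦n⟧) : f = 0 := by
  have := hfin X (Y⟦n⟧)
  have h1 : Subsingleton (X ⟶ Y⟦n⟧) := Module.finrank_zero_iff.1 h
  exact Subsingleton.elim _ _

theorem hd_eq_zero {X Y : D} {n : ℤ} (h : ∀ f : X ⟶ Y⟦n⟧, f = 0) : hd k X Y n = 0 := by
  have : Subsingleton (X ⟶ Y⟦n⟧) := ⟨fun a b => by rw [h a, h b]⟩
  exact Module.finrank_zero_of_subsingleton

/-- Long exact sequence, three consecutive terms. -/
theorem hd_exact (hfin : ∀ X Y : D, Module.Finite k (X ⟶ Y)) {A B C : D} {f : A ⟶ B} {g : B ⟶ C}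
    {h : C ⟶ A⟦(1 : ℤ)⟧} (hT : Triangle.mk f g h ∈ distTriang D) (X : D) (n : ℤ)
    (h1 : ∀ u : X ⟶ C⟦n - 1⟧, u = 0) (h2 : ∀ u : X ⟶ A⟦n + 1⟧, u = 0) :
    hd k X B n = hd k X A n + hd k X C n := by
  have fA : ∀ n : ℤ, Module.Finite k (X ⟶ A⟦n⟧) := fun n => hfin _ _
  have fB : ∀ n : ℤ, Module.Finite k (X ⟶ B⟦n⟧) := fun n => hfin _ _
  have fC : ∀ n : ℤ, Module.Finite k (X ⟶ C⟦n⟧) := fun n => hfin _ _
  have e1 := LinearMap.finrank_range_add_finrank_ker (postMap (k := k) X f n)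
  have e2 := LinearMap.finrank_range_add_finrank_ker (postMap (k := k) X g n)
  have e3 := LinearMap.finrank_range_add_finrank_ker (bdMap (k := k) X h n)
  rw [ker_post_g hT X n] at e2
  rw [ker_bd hT X n] at e3
  have k1 : Module.finrank k (LinearMap.ker (postMap (k := k) X f n)) = 0 := by
    have hk := ker_post_f (k := k) hT X (n - 1)
    have : LinearMap.ker (postMap (k := k) X f n) = ⊥ := by
      rw [show n = (n - 1) + 1 by ring, hk]
      rw [LinearMap.range_eq_bot]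
      ext u
      rw [h1 u]
      simp
    rw [this, finrank_bot]
  have k2 : Module.finrank k (LinearMap.range (bdMap (k := k) X h n)) = 0 := by
    have : LinearMap.range (bdMap (k := k) X h n) = ⊥ := by
      rw [LinearMap.range_eq_bot]
      ext u
      exact h2 _
    rw [this, finrank_bot]
  unfold hd
  omega

/-- Iterated extensions of a spherical object. -/
theorem hd_filt (hfin : ∀ X Y : D, Module.Finite k (X ⟶ Y)) {A : D}
    (hA : ∀ n : ℤ, n ≠ 0 → n ≠ 3 → hd k A A n = 0) {E : D} (hE : Filt (isoTo A) E) :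
    ∃ l : ℕ, ∀ n : ℤ, hd k A E n = l * hd k A A n := by
  induction hE with
  | zero X hX =>
    refine ⟨0, fun n => ?_⟩
    rw [zero_mul]
    exact hd_eq_zero fun f => ((shiftFunctor D n).map_isZero hX).eq_of_tgt _ _
  | ext E' E B f g h hT hE' hB ih =>
    obtain ⟨l, hl⟩ := ih
    obtain ⟨e⟩ := hB
    refine ⟨l + 1, fun n => ?_⟩
    have hB : ∀ m : ℤ, hd k A B m = hd k A A m := fun m => hd_congr_right e m
    by_cases hn : n = 0 ∨ n = 3
    · have h1 : ∀ u : A ⟶ B⟦n - 1⟧, u = 0 := by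
        refine zero_of_hd hfin ?_
        rw [hB]
        exact hA _ (by omega) (by omega)
      have h2 : ∀ u : A ⟶ E'⟦n + 1⟧, u = 0 := by
        refine zero_of_hd hfin ?_
        rw [hl, hA _ (by omega) (by omega), mul_zero]
      rw [hd_exact hfin hT A n h1 h2, hl, hB]
      ring
    · have h0 : hd k A A n = 0 := hA n (by omega) (by omega)
      rw [h0, mul_zero]
      refine hd_eq_zero fun u => ?_
      have hg : u ≫ g⟦n⟧' = 0 := zero_of_hd (k := k) hfin (by rw [hB, h0]) _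
      have hu : u ∈ LinearMap.ker (postMap (k := k) A g n) := hg
      rw [ker_post_g hT A n] at hu
      obtain ⟨w, hw⟩ := hu
      have hw0 : w = 0 := zero_of_hd (k := k) hfin (by rw [hl, h0, mul_zero]) _
      rw [← hw, hw0, map_zero]

/-- The dimension of `Ext¹` is reversed by a tilt. -/
theorem MutData.hd_eq (hC : CY3 k D) [IsAlgClosed k] {ι : Type} {X X' : ι → D} {i : ι}
    (hS : IsSMC X) (hm : MutData X X' i) (hi : ∀ f : X i ⟶ (X i)⟦(1 : ℤ)⟧, f = 0) (j : ι)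
    (hj : j ≠ i) : hd k (X' i) (X' j) 1 = hd k (X j) (X i) 1 := by
  have hfin := hC.fin
  have cy : ∀ (U V : D) (m : ℤ), hd k U V m = hd k V U (3 - m) := hC.cy
  have hneg : ∀ a b (m : ℤ), m < 0 → hd k (X a) (X b) m = 0 := fun a b m hm' =>
    hd_eq_zero fun f => hS.hom_neg a b m hm' f
  have hne : ∀ a b, a ≠ b → hd k (X a) (X b) 0 = 0 := fun a b hab => by
    refine hd_eq_zero fun f => ?_
    have := hS.hom_ne a b hab (f ≫ (shiftFunctorZero D ℤ).hom.app (X b))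
    rw [← cancel_mono ((shiftFunctorZero D ℤ).hom.app (X b)), this, zero_comp]
  have hA : ∀ n : ℤ, n ≠ 0 → n ≠ 3 → hd k (X i) (X i) n = 0 := by
    intro n h0 h3
    by_cases h1 : n < 0
    · exact hneg i i n h1
    · by_cases h4 : n = 1
      · subst h4
        exact hd_eq_zero hi
      · by_cases h5 : n = 2
        · subst h5
          rw [cy]
          exact hd_eq_zero hi
        · rw [cy]
          exact hneg i i _ (by omega)
  obtain ⟨E, a, b, c, hT, hE⟩ := hm.tri j hj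
  obtain ⟨l, hl⟩ := hd_filt hfin hA hE
  have hend : hd k (X i) (X i) 3 = hd k (X i) (X i) 0 := cy _ _ _
  -- degree 0
  have e1 : hd k (X i) (X' j) 0 = hd k (X i) E 0 := by
    rw [hd_exact hfin hT (X i) 0 ?_ ?_, hne i j (Ne.symm hj), add_zero]
    · exact zero_of_hd hfin (hneg i j _ (by norm_num))
    · refine zero_of_hd hfin ?_
      rw [hl, hA _ (by norm_num) (by norm_num), mul_zero]
  -- degree 2, 3
  have e2 : hd k (X i) (X j) 2 = hd k (X i) E 3 := by
    have hT' := rot_of_distTriang _ hT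
    have h1 : hd k (X i) (X j) 2 = hd k (X i) (X' j) 2 + hd k (X i) (E⟦(1 : ℤ)⟧) 2 := by
      refine hd_exact hfin hT' (X i) 2 ?_ ?_
      · refine zero_of_hd hfin ?_
        change hd k (X i) (E⟦(1 : ℤ)⟧) (2 - 1) = 0
        rw [hd_shift_right (X i) E 1 (2 - 1) 2 (by norm_num), hl,
          hA _ (by norm_num) (by norm_num), mul_zero]
      · refine zero_of_hd hfin ?_
        change hd k (X i) (X' j) (2 + 1) = 0
        rw [cy]
        refine hd_eq_zero fun f => ?_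
        have h0 := hm.hom0 j hj (f ≫ (shiftFunctorZero' D (3 - (2 + 1) : ℤ)
          (by norm_num)).hom.app (X i))
        rw [← cancel_mono ((shiftFunctorZero' D (3 - (2 + 1) : ℤ)
          (by norm_num)).hom.app (X i)), h0, zero_comp]
    have h2 : hd k (X i) (X' j) 2 = 0 := by
      rw [cy]
      exact hd_eq_zero (hm.hom1 j hj)
    rw [h1, h2, zero_add, hd_shift_right (X i) E 1 2 3 (by norm_num)]
  have e3 : hd k (X j) (X i) 1 = hd k (X i) (X j) 2 := cy _ _ _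
  have e4 : hd k (X' i) (X' j) 1 = hd k (X i) (X' j) 0 := by
    obtain ⟨e⟩ := hm.iso
    rw [hd_congr_left e]
    have h1 : hd k ((X i)⟦(1 : ℤ)⟧) (X' j) 1 = hd k (X' j) ((X i)⟦(1 : ℤ)⟧) 2 := cy _ _ _
    have h2 : hd k (X i) (X' j) 0 = hd k (X' j) (X i) 3 := cy _ _ _
    rw [h1, h2, hd_shift_right (X' j) (X i) 1 2 3 (by norm_num)]
  rw [e4, e1, e3, e2, hl, hl, hend]

/-- The backward step, with non-degeneracy of the target only. -/
theorem HasDat.backward [IsAlgClosed k] (hC : CY3 k D) {cls : D → Fin 6 → ℤ} (hcls : IsAdd cls)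
    (hE : EulerStmt k D cls) {t t' : TStructure D} {S : D} (ht : IsFiniteHeart t)
    (ht' : IsFiniteHeart t') (hnd : NonDeg t') (hS1 : ∀ f : S ⟶ S⟦(1 : ℤ)⟧, f = 0)
    (h : IsFwdTilt t S t') (hd' : HasDat cls t') : HasDat cls t := by
  obtain ⟨n, X, hX⟩ := exists_SList ht
  obtain ⟨i, X', ⟨e⟩, h1, hm, h3⟩ := edge_mut k hC.fin ht ht' h hS1 hX
  have hi : ∀ f : X i ⟶ (X i)⟦(1 : ℤ)⟧, f = 0 := by
    intro f
    have h1 := hS1 (e.hom ≫ f ≫ e.inv⟦(1 : ℤ)⟧')
    rw [← cancel_epi e.hom, ← cancel_mono (e.inv⟦(1 : ℤ)⟧'), Category.assoc, h1]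
    simp
  obtain ⟨Y, k1, k2, hD⟩ := hd'
  obtain ⟨e', -⟩ := h1.perm hD.sl
  have hn : n = 6 := by simpa using Fintype.card_congr e'
  subst hn
  obtain ⟨f, hd''⟩ := hD.change hcls h1
  have hcl : cls (X' i) = - cls (X i) := by
    obtain ⟨e1⟩ := hm.iso
    rw [hcls.iso e1, hcls.shift]
  have hSMC : IsSMC X := (hX.toSMList ht).isSMC
  have hMR : MutRel i (fun a => cls (X a)) (fun a => cls (X' a)) := by
    refine ⟨hcl, fun j hj => ?_⟩
    have h4 := h3 j hj cls hcls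
    have h5 : (Module.finrank k (X j ⟶ (X i)⟦(1 : ℤ)⟧) : ℤ) =
        max (om (cls (X j)) (cls (X i))) 0 := by
      have h6 := hm.hd_eq hC hSMC hi j hj
      have h7 := ext_dim hE ht' hnd (h1.simple i) (h1.simple j)
      change (hd k (X' i) (X' j) 1 : ℤ) = _ at h7
      change (hd k (X j) (X i) 1 : ℤ) = _
      rw [← h6, h7, hcl, h4, om_neg_left, om_add_right]
      have h8 : om (cls (X i)) ((Module.finrank k (X j ⟶ (X i)⟦(1 : ℤ)⟧)) • cls (X i)) = 0 := by
        have := om_smul_right (Module.finrank k (X j ⟶ (X i)⟦(1 : ℤ)⟧) : ℤ) (cls (X i))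
          (cls (X i))
        rw [om_self, mul_zero] at this
        rw [← this]
        simp
      rw [h8, add_zero, om_skew (cls (X j)) (cls (X i))]
    show cls (X' j) = cls (X j) + (max (om (cls (X j)) (cls (X i))) 0) • cls (X i)
    rw [h4, ← h5]
    simp
  exact ⟨X, _, _, hX, hd''.dat.backward hMR⟩

end

end EGr
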