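import Pool.Agent.Lib_MP_a23b08_t.T2Back
import Pool.Agent.Lib_MP_a23b08_t1.Extra

/-!
# MP_a23b08_al, part T: the joint induction (state and a property `P`) over the component
-/

open CategoryTheory CategoryTheory.Limits CategoryTheory.Triangulated
  CategoryTheory.Pretriangulated

universe v u

namespace EGr

/-- THEOREM T, JOINT FORM. Instead of the non-degeneracy of all hearts of the component, it is enough
to have a property `P` of finite hearts which holds for `t₀`, implies non-degeneracy, and is
inherited along forward and backward tilts. -/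
theorem theoremT_joint (k : Type) [Field k] [IsAlgClosed k] {D : Type u} [Category.{v} D]
    [Preadditive D] [HasZeroObject D] [HasShift D ℤ] [∀ n : ℤ, (shiftFunctor D n).Additive]
    [Pretriangulated D] [IsTriangulated D] [Linear k D] (hC : CY3 k D) {cls : D → Fin 6 → ℤ}
    (hcls : IsAdd cls) {t₀ : TStructure D} (h₀ : IsFiniteHeart t₀) {S : Fin 6 → D}
    (hS : SList t₀ S) (hS1 : ∀ i j, cls (S i) j = if i = j then 1 else 0)
    (hext : ∀ i j, (Module.finrank k (S i ⟶ (S j)⟦(1 : ℤ)⟧) : ℤ) = max (MPa23.B0 i j) 0)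
    (P : TStructure D → Prop) (hP₀ : P t₀)
    (hPnd : ∀ t : TStructure D, IsFiniteHeart t → HasDat cls t → P t → NonDeg t)
    (hfw : ∀ (t t' : TStructure D) (T : D), IsFiniteHeart t → IsFiniteHeart t' →
      IsFwdTilt t T t' → NonDeg t → HasDat cls t → HasDat cls t' → P t → P t')
    (hbw : ∀ (t t' : TStructure D) (T : D), IsFiniteHeart t → IsFiniteHeart t' →
      IsFwdTilt t T t' → NonDeg t' → HasDat cls t → HasDat cls t' → P t' → P t) :
    ¬ SimplyConnected k t₀ := by
  have hE : EulerStmt k D cls := eulerStmt hC h₀ S hS cls hcls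
    (fun i => funext fun j => by rw [hS1, Pi.single_apply]; simp only [eq_comm]) hext
  have hT : TiltStmt k D := tiltStmt k D hC.fin
  have h0 : HasDat cls t₀ := by
    refine ⟨S, MPa23.K10, MPa23.K20, hS, ?_⟩
    have hc : (fun a => cls (S a)) = fun a b => if a = b then (1 : ℤ) else 0 :=
      funext fun a => funext fun b => hS1 a b
    rw [hc]
    refine ⟨?_, ?_, ?_, ?_⟩
    · have : Bm (fun a b => if a = b then (1 : ℤ) else 0) = MPa23.B0 := by
        funext a b
        simp [Bm, MPa23.om]
      rw [this]
      exact MPa23.isSt_init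
    · funext b
      simp [cmb]
    · funext b
      simp [cmb]
    · intro l hl
      funext b
      have := congrFun hl b
      simpa [cmb] using this
  have key : ∀ x y, Relation.EqvGen Edge x y →
      (HasDat cls x ∧ P x ↔ HasDat cls y ∧ P y) := by
    intro x y h
    induction h with
    | rel x y h =>
      obtain ⟨h1, h2, T, h3⟩ := h
      constructor
      · rintro ⟨hd, hp⟩
        have hn := hPnd x h1 hd hp
        have hd' := (HasDat.edge_iff hT leStmt hcls hE h1 h2 hn h3).1 hd
        exact ⟨hd', hfw x y T h1 h2 h3 hn hd hd' hp⟩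
      · rintro ⟨hd, hp⟩
        have hn := hPnd y h2 hd hp
        have hr : ∀ f : T ⟶ T⟦(1 : ℤ)⟧, f = 0 := by
          intro f
          have h4 := hn.1 _ (fwdTilt_simple_shift h1 h2.bounded h3) (f⟦(1 : ℤ)⟧')
          exact (shiftFunctor D (1 : ℤ)).map_injective (by rw [h4, Functor.map_zero])
        have hd' := HasDat.backward hC hcls hE h1 h2 hn hr h3 hd
        exact ⟨hd', hbw x y T h1 h2 h3 hn hd' hd hp⟩
    | refl x => exact Iff.rfl
    | symm x y h ih => exact ih.symm
    | trans x y z h1 h2 ih1 ih2 => exact ih1.trans ih2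
  refine theoremT k hC hcls h₀ hS hS1 hext fun a => ?_
  obtain ⟨hd, hp⟩ := (key _ _ a.conn).1 ⟨h0, hP₀⟩
  exact hPnd a.t a.finite hd hp

end EGr
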