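import Mathlib

/-!
# Finite hearts, simple tilts and the exchange groupoid: definitions

Everything is for a `k`-linear triangulated category `D` and `N = 3`.
-/

open CategoryTheory CategoryTheory.Limits CategoryTheory.Triangulated
  CategoryTheory.Pretriangulated

universe v u

namespace EGr

section
variable {D : Type u} [Category.{v} D] [Preadditive D] [HasZeroObject D] [HasShift D ℤ]
  [∀ n : ℤ, (shiftFunctor D n).Additive] [Pretriangulated D]

/-- `X` is a simple object of the heart of the t-structure `t`: it is a nonzero object of the heart,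
and in each short exact sequence `0 → A → X → B → 0` of the heart one of `A`, `B` is zero. -/
def SimpleIn (t : TStructure D) (X : D) : Prop :=
  t.heart X ∧ ¬ IsZero X ∧ ∀ (A B : D) (f : A ⟶ X) (g : X ⟶ B) (h : B ⟶ A⟦(1 : ℤ)⟧),
    Triangle.mk f g h ∈ distTriang D → t.heart A → t.heart B → IsZero A ∨ IsZero B

/-- Iterated extensions of objects with the property `P`. -/
inductive Filt (P : D → Prop) : D → Prop
  | zero (X : D) (hX : IsZero X) : Filt P X
  | ext (A X B : D) (f : A ⟶ X) (g : X ⟶ B) (h : B ⟶ A⟦(1 : ℤ)⟧)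
      (hT : Triangle.mk f g h ∈ distTriang D) (hA : Filt P A) (hB : P B) : Filt P X

/-- The t-structure `t` is bounded and its heart is a finite heart: a length category with finitely
many simple objects (up to isomorphism). -/
structure IsFiniteHeart (t : TStructure D) : Prop where
  bounded : ∀ X : D, ∃ a b : ℤ, t.ge a X ∧ t.le b X
  length : ∀ X : D, t.heart X → Filt (SimpleIn t) X
  finite : ∃ (n : ℕ) (S : Fin n → D), ∀ X : D, SimpleIn t X → ∃ i, Nonempty (X ≅ S i)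

/-- `t'` is the forward simple tilt of `t` at the simple object `S` of its heart: its heart consists
of the objects `X` with `H⁻¹(X)` an iterated extension of copies of `S`, `H⁰(X)` an object
of the heart of `t` without nonzero morphism to `S`, and no other cohomology. It contains `S[1]`. -/
def IsFwdTilt (t : TStructure D) (S : D) (t' : TStructure D) : Prop :=
  SimpleIn t S ∧ ∀ X : D, t'.heart X ↔
    ∃ (A B : D) (f : A⟦(1 : ℤ)⟧ ⟶ X) (g : X ⟶ B) (h : B ⟶ A⟦(1 : ℤ)⟧⟦(1 : ℤ)⟧),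
      Triangle.mk f g h ∈ distTriang D ∧ Filt (fun Y => Nonempty (Y ≅ S)) A ∧ t.heart B ∧
        ∀ φ : B ⟶ S, φ = 0

/-- `t'` is the forward simple tilt of `t` at some simple object, both being finite hearts. -/
def Edge (t t' : TStructure D) : Prop :=
  IsFiniteHeart t ∧ IsFiniteHeart t' ∧ ∃ S, IsFwdTilt t S t'

/-- The vertices of the exchange graph `EG`: the finite hearts in the connected component of `t₀`
(edges may be used in both directions). -/
structure Vertex (t₀ : TStructure D) where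
  /-- the t-structure -/
  t : TStructure D
  finite : IsFiniteHeart t
  conn : Relation.EqvGen Edge t₀ t

/-- The oriented graph `EG`: its edges are the forward simple tilts. -/
instance (t₀ : TStructure D) : Quiver (Vertex t₀) where
  Hom a b := PLift (∃ S, IsFwdTilt a.t S b.t)

/-- No loops and no 2-cycles in the `Ext¹`-quiver of the heart of `t`. -/
def NonDeg (t : TStructure D) : Prop :=
  (∀ S : D, SimpleIn t S → ∀ f : S ⟶ S⟦(1 : ℤ)⟧, f = 0) ∧
    ∀ S T : D, SimpleIn t S → SimpleIn t T →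
      (∀ f : S ⟶ T⟦(1 : ℤ)⟧, f = 0) ∨ ∀ f : T ⟶ S⟦(1 : ℤ)⟧, f = 0

end

section
variable (k : Type) [Field k] {D : Type u} [Category.{v} D] [Preadditive D] [HasZeroObject D]
  [HasShift D ℤ] [∀ n : ℤ, (shiftFunctor D n).Additive] [Pretriangulated D] [Linear k D]

/-- `T ≅ φ_S⁻¹(X)`, where `φ_S` is the spherical twist along `S`: there is a distinguished
triangle `T → X → ⨁ S[n_i] → T[1]`, for each integer `a` the components with `n_i = a` forming a
basis of `Hom(X, S[a])`. -/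
def IsTwistInv (S X T : D) : Prop :=
  ∃ (m : ℕ) (n : Fin m → ℤ) (Y : D) (p : ∀ i, Y ⟶ S⟦n i⟧) (_ : Nonempty (IsLimit (Fan.mk Y p)))
    (f : T ⟶ X) (g : X ⟶ Y) (h : Y ⟶ T⟦(1 : ℤ)⟧), Triangle.mk f g h ∈ distTriang D ∧
    ∀ a : ℤ, ∃ b : Module.Basis {i // n i = a} k (X ⟶ S⟦a⟧), ∀ i : {i // n i = a},
      b i = g ≫ p i.1 ≫ eqToHom (congrArg (fun c : ℤ => S⟦c⟧) i.2)

/-- The free groupoid on the oriented graph `EG`. -/
def FG (t₀ : TStructure D) : Type u := Quiver.FreeGroupoid (Vertex t₀)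

instance (t₀ : TStructure D) : Category (FG t₀) :=
  @Quiver.FreeGroupoid.instCategory (Vertex t₀) _

/-- The object of the free groupoid given by a vertex of `EG`. -/
def vx {t₀ : TStructure D} (a : Vertex t₀) : FG t₀ := (Quiver.FreeGroupoid.of (Vertex t₀)).obj a

/-- The arrow of the free groupoid given by an edge of `EG`. -/
def arr {t₀ : TStructure D} {a b : Vertex t₀} {S : D} (h : IsFwdTilt a.t S b.t) : vx a ⟶ vx b :=
  (Quiver.FreeGroupoid.of (Vertex t₀)).map ⟨⟨S, h⟩⟩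

/-- The square, pentagon and hexagon (`2N`-gon for `N = 3`) relations. -/
inductive Rel (t₀ : TStructure D) : HomRel (FG t₀)
  /-- `Ext¹(S_i, S_j) = 0` and `Ext¹(S_j, S_i) = 0`:
  `H → H_j → (H_j)♯_{S_i}` equals `H → H_i → (H_i)♯_{S_j}`. -/
  | square (H Hi Hj K : Vertex t₀) (Si Sj : D) (hne : IsEmpty (Si ≅ Sj))
      (h1 : ∀ φ : Si ⟶ Sj⟦(1 : ℤ)⟧, φ = 0) (h2 : ∀ φ : Sj ⟶ Si⟦(1 : ℤ)⟧, φ = 0)
      (a1 : IsFwdTilt H.t Sj Hj.t) (a2 : IsFwdTilt Hj.t Si K.t)
      (b1 : IsFwdTilt H.t Si Hi.t) (b2 : IsFwdTilt Hi.t Sj K.t) :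
      Rel t₀ (arr a1 ≫ arr a2) (arr b1 ≫ arr b2)
  /-- `Ext¹(S_i, S_j) = 0` and `Ext¹(S_j, S_i) = k`, `T_j = φ_{S_i}⁻¹(S_j)`:
  `H → H_j → (H_j)♯_{S_i}` equals `H → H_i → (H_i)♯_{T_j} → (H_j)♯_{S_i}`, the last edge being
  the tilt at `S_j`. -/
  | pentagon (H Hi Hj K L : Vertex t₀) (Si Sj Tj : D) (hne : IsEmpty (Si ≅ Sj))
      (h1 : ∀ φ : Si ⟶ Sj⟦(1 : ℤ)⟧, φ = 0) (h2 : Module.finrank k (Sj ⟶ Si⟦(1 : ℤ)⟧) = 1)
      (hT : IsTwistInv k Si Sj Tj)
      (a1 : IsFwdTilt H.t Sj Hj.t) (a2 : IsFwdTilt Hj.t Si K.t)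
      (b1 : IsFwdTilt H.t Si Hi.t) (b2 : IsFwdTilt Hi.t Tj L.t) (b3 : IsFwdTilt L.t Sj K.t) :
      Rel t₀ (arr a1 ≫ arr a2) (arr b1 ≫ arr b2 ≫ arr b3)
  /-- `Ext¹(S_i, S_j) = 0`, `T_j = φ_{S_i}⁻¹(S_j)`:
  `H → H_j → (H_j)♯_{S_i} → (H_j)²♯_{S_i}` equals `H → H_i → (H_i)♯_{S_i[1]} → φ_{S_i}⁻¹(H_j)`,
  the last edge being the tilt at `T_j`. -/
  | hexagon (H Hi Hj Hji K L : Vertex t₀) (Si Sj Tj : D) (hne : IsEmpty (Si ≅ Sj))
      (h1 : ∀ φ : Si ⟶ Sj⟦(1 : ℤ)⟧, φ = 0) (hT : IsTwistInv k Si Sj Tj)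
      (a1 : IsFwdTilt H.t Sj Hj.t) (a2 : IsFwdTilt Hj.t Si Hji.t)
      (a3 : IsFwdTilt Hji.t (Si⟦(1 : ℤ)⟧) K.t)
      (b1 : IsFwdTilt H.t Si Hi.t) (b2 : IsFwdTilt Hi.t (Si⟦(1 : ℤ)⟧) L.t)
      (b3 : IsFwdTilt L.t Tj K.t) :
      Rel t₀ (arr a1 ≫ arr a2 ≫ arr a3) (arr b1 ≫ arr b2 ≫ arr b3)

/-- The exchange groupoid of the component of `t₀`, i.e. the free groupoid on the oriented graph `EG` modulo
the square, pentagon and hexagon relations, is simply connected: all its vertex groups are trivial (it is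
connected by construction). -/
def SimplyConnected (t₀ : TStructure D) : Prop :=
  ∀ (x : CategoryTheory.Quotient (Rel k t₀)) (γ : x ⟶ x), γ = 𝟙 x

end

end EGr
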