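import Mathlib
import Pool.Agent.Lib_MP_a23b08_t.TDef

/-!
# T3: the Euler form and the mutation rule

`hd k X Y n = dim Hom(X, Y[n])`, `IsCY3 k D` (Hom-finite and 3-Calabi-Yau on dimensions),
`chi k X Y = ∑ (-1)^n hd k X Y n`, additivity on distinguished triangles in both variables,
the values on the simples of a finite heart, and the Fomin-Zelevinsky mutation rule.
-/

open CategoryTheory CategoryTheory.Limits CategoryTheory.Triangulated
  CategoryTheory.Pretriangulated ZeroObject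

set_option linter.unusedSectionVars false

universe v u

namespace EGr

section Add

variable {D : Type u} [Category.{v} D] [Preadditive D] [HasZeroObject D] [HasShift D ℤ]
  [∀ n : ℤ, (shiftFunctor D n).Additive] [Pretriangulated D]

/-- `cl` is additive on distinguished triangles. -/
def AddCl {M : Type*} [AddCommGroup M] (cl : D → M) : Prop :=
  ∀ (A B C : D) (f : A ⟶ B) (g : B ⟶ C) (h : C ⟶ A⟦(1 : ℤ)⟧), Triangle.mk f g h ∈ distTriang D →
    cl B = cl A + cl C

/-- The family `S` generates `D` as far as additive functions can see. -/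
def Gen {ι : Type*} (S : ι → D) : Prop :=
  ∀ cl : D → ℤ, AddCl cl → (∀ j, cl (S j) = 0) → ∀ X, cl X = 0

namespace AddCl

variable {M : Type*} [AddCommGroup M] {cl : D → M} (hcl : AddCl cl)
include hcl

theorem zero : cl (0 : D) = 0 := by
  have h := hcl _ _ _ _ _ _ (contractible_distinguished (0 : D))
  have h' : cl (0 : D) = cl (0 : D) + cl (0 : D) := h
  simpa using h'

theorem iso {X Y : D} (e : X ≅ Y) : cl X = cl Y := by
  have hT : Triangle.mk e.hom (0 : Y ⟶ (0 : D)) (0 : (0 : D) ⟶ X⟦(1 : ℤ)⟧) ∈ distTriang D := by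
    refine isomorphic_distinguished _ (contractible_distinguished X) _ ?_
    refine Triangle.isoMk _ _ (Iso.refl _) e.symm (Iso.refl _) ?_ ?_ ?_
    · change e.hom ≫ e.inv = 𝟙 X ≫ 𝟙 X
      simp
    · change (0 : Y ⟶ (0 : D)) ≫ 𝟙 _ = e.inv ≫ 0
      simp
    · change (0 : (0 : D) ⟶ X⟦(1 : ℤ)⟧) ≫ (𝟙 X)⟦(1 : ℤ)⟧' = 𝟙 _ ≫ 0
      simp
  have h := hcl _ _ _ _ _ _ hT
  rw [hcl.zero, add_zero] at h
  exact h.symm

theorem of_isZero {X : D} (hX : IsZero X) : cl X = 0 := by
  rw [hcl.iso (hX.isoZero), hcl.zero]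

theorem shift (X : D) : cl (X⟦(1 : ℤ)⟧) = - cl X := by
  have hT : Triangle.mk (0 : X ⟶ (0 : D)) (0 : (0 : D) ⟶ X⟦(1 : ℤ)⟧) (𝟙 (X⟦(1 : ℤ)⟧)) ∈
      distTriang D := contractible_distinguished₂ _
  have h := hcl _ _ _ _ _ _ hT
  rw [hcl.zero] at h
  rw [eq_neg_iff_add_eq_zero, add_comm]
  exact h.symm

/-- The class of a finite product. -/
theorem fan {m : ℕ} {Y : D} {S : Fin m → D} (p : ∀ j, Y ⟶ S j) (hp : IsLimit (Fan.mk Y p)) :
    cl Y = ∑ j, cl (S j) := by
  induction m generalizing Y with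
  | zero =>
    have hY : IsZero Y := by
      rw [IsZero.iff_id_eq_zero]
      exact Fan.IsLimit.hom_ext hp _ _ fun j => Fin.elim0 j
    rw [hcl.of_isZero hY]
    simp
  | succ m ih =>
    let T : D := ∏ᶜ fun j : Fin m => S j.succ
    let q : ∀ j : Fin (m + 1), (S 0 ⨯ T) ⟶ S j :=
      Fin.cases prod.fst fun j => prod.snd ≫ Pi.π (fun j : Fin m => S j.succ) j
    have hq : IsLimit (Fan.mk (S 0 ⨯ T) q) := by
      refine Fan.IsLimit.mk _ (fun s => prod.lift (s.proj 0) (Pi.lift fun j : Fin m => s.proj j.succ)) ?_ ?_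
      · intro s j
        refine Fin.cases ?_ (fun j => ?_) j
        · exact prod.lift_fst _ _
        · change prod.lift (s.proj 0) (Pi.lift fun j : Fin m => s.proj j.succ) ≫
            (prod.snd ≫ Pi.π (fun j : Fin m => S j.succ) j) = s.proj j.succ
          rw [← Category.assoc, prod.lift_snd, Pi.lift_π]
      · intro s w hw
        refine Limits.prod.hom_ext ?_ (Pi.hom_ext _ _ fun j => ?_)
        · rw [prod.lift_fst]
          exact hw 0
        · rw [prod.lift_snd, Pi.lift_π, Category.assoc]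
          exact hw j.succ
    have e : Y ≅ S 0 ⨯ T := hp.conePointUniqueUpToIso hq
    have h1 : cl (S 0 ⨯ T) = cl (S 0) + cl T :=
      hcl _ _ _ _ _ _ (binaryProductTriangle_distinguished (S 0) T)
    have h2 : cl T = ∑ j : Fin m, cl (S j.succ) :=
      ih (fun j => Pi.π (fun j : Fin m => S j.succ) j) (productIsProduct _)
    rw [hcl.iso e, h1, h2, Fin.sum_univ_succ]

omit hcl in
theorem sub {M : Type*} [AddCommGroup M] {cl cl' : D → M} (h : AddCl cl) (h' : AddCl cl') :
    AddCl fun X => cl X - cl' X := by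
  intro A B C f g i hT
  simp only
  rw [h _ _ _ _ _ _ hT, h' _ _ _ _ _ _ hT]
  abel

/-- The class of the `m`-th shift, up to sign. -/
theorem shift_eq_zero {X : D} (hX : cl X = 0) (m : ℤ) : cl (X⟦m⟧) = 0 := by
  induction m using Int.induction_on with
  | zero => rw [hcl.iso ((shiftFunctorZero D ℤ).app X)]; exact hX
  | succ i ih =>
    rw [hcl.iso ((shiftFunctorAdd' D (i : ℤ) 1 (i + 1) rfl).app X)]
    change cl ((X⟦(i : ℤ)⟧)⟦(1 : ℤ)⟧) = 0
    rw [hcl.shift, ih, neg_zero]
  | pred i ih =>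
    rw [hcl.iso ((shiftFunctorAdd' D (-i - 1 : ℤ) 1 (-i) (by ring)).app X)] at ih
    change cl ((X⟦(-i - 1 : ℤ)⟧)⟦(1 : ℤ)⟧) = 0 at ih
    rw [hcl.shift, neg_eq_zero] at ih
    exact ih

/-- An additive function which vanishes on generators vanishes. -/
theorem eq_zero_of_gen {ι : Type*} (S : ι → D)
    (hgen : ∀ X : D, Filt (fun Y => ∃ (j : ι) (m : ℤ), Nonempty (Y ≅ (S j)⟦m⟧)) X)
    (h0 : ∀ j, cl (S j) = 0) (X : D) : cl X = 0 := by
  induction hgen X with
  | zero X hX => exact hcl.of_isZero hX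
  | ext A X B f g h hT _ hB ih =>
    rw [hcl _ _ _ _ _ _ hT, ih]
    obtain ⟨j, m, ⟨e⟩⟩ := hB
    rw [hcl.iso e, hcl.shift_eq_zero (h0 j), add_zero]

omit hcl in
/-- Every additive function is determined by the class in `ℤⁿ`. -/
theorem eq_sum {cl : D → ℤ} (hcl : AddCl cl) {n : ℕ} {S : Fin n → D} (hgen : Gen S)
    {cls : D → Fin n → ℤ} (hcls : AddCl cls) (hS : ∀ i, cls (S i) = Pi.single i 1) (X : D) :
    cl X = ∑ a, cls X a • cl (S a) := by
  have hadd : AddCl fun X : D => ∑ a, cls X a • cl (S a) := by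
    intro A B C f g h hT
    simp only
    rw [hcls _ _ _ _ _ _ hT, ← Finset.sum_add_distrib]
    refine Finset.sum_congr rfl fun a _ => ?_
    rw [Pi.add_apply, add_smul]
  have := hgen _ (hcl.sub hadd) (fun j => by
    simp only [hS]
    rw [Finset.sum_eq_single j]
    · simp
    · intro b _ hb
      rw [Pi.single_eq_of_ne hb]; simp
    · intro h; exact absurd (Finset.mem_univ _) h) X
  exact sub_eq_zero.mp this

/-- The class of an iterated extension of copies of `S`. -/
theorem of_filt {S : D} {A : D} (hA : Filt (fun Y => Nonempty (Y ≅ S)) A) :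
    ∃ m : ℕ, cl A = m • cl S := by
  induction hA with
  | zero X hX => exact ⟨0, by rw [hcl.of_isZero hX, zero_smul]⟩
  | ext A X B f g h hT _ hB ih =>
    obtain ⟨m, hm⟩ := ih
    obtain ⟨e⟩ := hB
    exact ⟨m + 1, by rw [hcl _ _ _ _ _ _ hT, hm, hcl.iso e, add_smul, one_smul]⟩

end AddCl

/-- Iterated extensions of shifts. -/
theorem gen_of_filt {ι : Type*} {S : ι → D}
    (hgen : ∀ X : D, Filt (fun Y => ∃ (j : ι) (m : ℤ), Nonempty (Y ≅ (S j)⟦m⟧)) X) : Gen S :=
  fun _ hcl h0 X => hcl.eq_zero_of_gen S hgen h0 X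

end Add

section Hd

variable (k : Type) [Field k] {D : Type u} [Category.{v} D] [Preadditive D] [HasZeroObject D]
  [HasShift D ℤ] [∀ n : ℤ, (shiftFunctor D n).Additive] [Pretriangulated D] [Linear k D]

/-- `dim Hom(X, Y[n])`. -/
noncomputable def hd (X Y : D) (n : ℤ) : ℕ := Module.finrank k (X ⟶ Y⟦n⟧)

variable (D) in
/-- Hom-finite and `3`-Calabi-Yau on dimensions. -/
structure IsCY3 : Prop where
  fin : ∀ X Y : D, Module.Finite k (X ⟶ Y)
  bdd : ∀ X Y : D, {n : ℤ | hd k X Y n ≠ 0}.Finite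
  cy : ∀ (X Y : D) (n : ℤ), hd k X Y n = hd k Y X (3 - n)

/-- The Euler form. -/
noncomputable def chi (X Y : D) : ℤ := ∑ᶠ n : ℤ, ((n.negOnePow : ℤˣ) : ℤ) * (hd k X Y n : ℤ)

variable {k}

/-- post-composition, `k`-linear -/
theorem hd_congr_right {X Y Y' : D} (e : Y ≅ Y') (n : ℤ) : hd k X Y n = hd k X Y' n :=
  LinearEquiv.finrank_eq
    { toFun := fun u => u ≫ e.hom⟦n⟧'
      invFun := fun u => u ≫ e.inv⟦n⟧'
      map_add' := by intro a b; simp
      map_smul' := by intro a b; simp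
      left_inv := by intro a; simp [← Functor.map_comp]
      right_inv := by intro a; simp [← Functor.map_comp] }

theorem hd_congr_left {X X' Y : D} (e : X ≅ X') (n : ℤ) : hd k X Y n = hd k X' Y n :=
  LinearEquiv.finrank_eq
    { toFun := fun u => e.inv ≫ u
      invFun := fun u => e.hom ≫ u
      map_add' := by intro a b; simp
      map_smul' := by intro a b; simp
      left_inv := by intro a; simp
      right_inv := by intro a; simp }

theorem hd_shift_right (X Y : D) (a n m : ℤ) (h : a + n = m) :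
    hd k X (Y⟦a⟧) n = hd k X Y m :=
  LinearEquiv.finrank_eq
    { toFun := fun u => u ≫ (shiftFunctorAdd' D a n m h).inv.app Y
      invFun := fun u => u ≫ (shiftFunctorAdd' D a n m h).hom.app Y
      map_add' := by intro a b; simp
      map_smul' := by intro a b; simp
      left_inv := by intro a; simp
      right_inv := by intro a; simp }

section triangle

variable {A B C : D} {f : A ⟶ B} {g : B ⟶ C} {h : C ⟶ A⟦(1 : ℤ)⟧}

/-- The map `Hom(X, A[n]) → Hom(X, B[n])`. -/
noncomputable def postMap (X : D) (f : A ⟶ B) (n : ℤ) : (X ⟶ A⟦n⟧) →ₗ[k] (X ⟶ B⟦n⟧) where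
  toFun u := u ≫ f⟦n⟧'
  map_add' := by intro a b; simp
  map_smul' := by intro a b; simp

/-- The map `Hom(X, C[n]) → Hom(X, A[n+1])`. -/
noncomputable def bdMap (X : D) (h : C ⟶ A⟦(1 : ℤ)⟧) (n : ℤ) :
    (X ⟶ C⟦n⟧) →ₗ[k] (X ⟶ A⟦n + 1⟧) where
  toFun u := u ≫ h⟦n⟧' ≫ (shiftFunctorAdd' D 1 n (n + 1) (by ring)).inv.app A
  map_add' := by intro a b; simp
  map_smul' := by intro a b; simp

variable (hT : Triangle.mk f g h ∈ distTriang D)
include hT

theorem ker_post_g (X : D) (n : ℤ) :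
    LinearMap.ker (postMap (k := k) X g n) = LinearMap.range (postMap (k := k) X f n) := by
  have hS := Triangle.shift_distinguished _ hT n
  ext u
  simp only [LinearMap.mem_ker, LinearMap.mem_range]
  constructor
  · intro hu
    obtain ⟨w, hw⟩ : ∃ w : X ⟶ A⟦n⟧, u = w ≫ (n.negOnePow • f⟦n⟧') :=
      Triangle.coyoneda_exact₂ _ hS u (by
        change u ≫ (n.negOnePow • g⟦n⟧') = 0
        rw [Linear.comp_units_smul]
        change n.negOnePow • (postMap (k := k) X g n u) = 0
        rw [hu, smul_zero])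
    refine ⟨n.negOnePow • w, ?_⟩
    rw [hw]
    change (n.negOnePow • w) ≫ f⟦n⟧' = w ≫ (n.negOnePow • f⟦n⟧')
    rw [Linear.comp_units_smul, Linear.units_smul_comp]
  · rintro ⟨w, rfl⟩
    change (w ≫ f⟦n⟧') ≫ g⟦n⟧' = 0
    rw [Category.assoc, ← Functor.map_comp]
    have : f ≫ g = 0 := comp_distTriang_mor_zero₁₂ _ hT
    rw [this, Functor.map_zero, comp_zero]

theorem ker_bd (X : D) (n : ℤ) :
    LinearMap.ker (bdMap (k := k) X h n) = LinearMap.range (postMap (k := k) X g n) := by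
  have hS := Triangle.shift_distinguished _ hT n
  ext u
  simp only [LinearMap.mem_ker, LinearMap.mem_range]
  constructor
  · intro hu
    have hu' : u ≫ h⟦n⟧' = 0 := by
      have : (u ≫ h⟦n⟧') ≫ (shiftFunctorAdd' D 1 n (n + 1) (by ring)).inv.app A = 0 := by
        rw [Category.assoc]; exact hu
      rw [← cancel_mono ((shiftFunctorAdd' D 1 n (n + 1) (by ring)).inv.app A), this, zero_comp]
    obtain ⟨w, hw⟩ : ∃ w : X ⟶ B⟦n⟧, u = w ≫ (n.negOnePow • g⟦n⟧') :=
      Triangle.coyoneda_exact₃ _ hS u (by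
        change u ≫ (n.negOnePow • (h⟦n⟧' ≫ (shiftFunctorComm D 1 n).hom.app A)) = 0
        rw [Linear.comp_units_smul, ← Category.assoc, hu', zero_comp, smul_zero])
    refine ⟨n.negOnePow • w, ?_⟩
    rw [hw]
    change (n.negOnePow • w) ≫ g⟦n⟧' = w ≫ (n.negOnePow • g⟦n⟧')
    rw [Linear.comp_units_smul, Linear.units_smul_comp]
  · rintro ⟨w, rfl⟩
    change (w ≫ g⟦n⟧') ≫ h⟦n⟧' ≫ _ = 0
    rw [Category.assoc, ← Functor.map_comp_assoc]
    have : g ≫ h = 0 := comp_distTriang_mor_zero₂₃ _ hT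
    rw [this, Functor.map_zero, zero_comp, comp_zero]

theorem ker_post_f (X : D) (n : ℤ) :
    LinearMap.ker (postMap (k := k) X f (n + 1)) = LinearMap.range (bdMap (k := k) X h n) := by
  have hS := Triangle.shift_distinguished _ hT n
  ext u
  simp only [LinearMap.mem_ker, LinearMap.mem_range]
  constructor
  · intro hu
    have hu' : u ≫ f⟦n + 1⟧' = 0 := hu
    obtain ⟨w, hw⟩ : ∃ w : X ⟶ C⟦n⟧, u ≫ (shiftFunctorAdd' D n 1 (n + 1) rfl).hom.app A =
        w ≫ (n.negOnePow • (h⟦n⟧' ≫ (shiftFunctorComm D 1 n).hom.app A)) :=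
      Triangle.coyoneda_exact₁ _ hS
      (u ≫ (shiftFunctorAdd' D n 1 (n + 1) rfl).hom.app A) (by
      change (u ≫ (shiftFunctorAdd' D n 1 (n + 1) rfl).hom.app A) ≫ (n.negOnePow • f⟦n⟧')⟦1⟧' = 0
      have h1 : (n.negOnePow • f⟦n⟧')⟦(1 : ℤ)⟧' = n.negOnePow • (f⟦n⟧')⟦(1 : ℤ)⟧' := by
        rcases Int.units_eq_one_or n.negOnePow with h | h <;> rw [h] <;> simp
      rw [h1, Linear.comp_units_smul, Category.assoc]
      have h2 := (shiftFunctorAdd' D n 1 (n + 1) rfl).hom.naturality f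
      have h3 : (shiftFunctorAdd' D n 1 (n + 1) rfl).hom.app A ≫ (f⟦n⟧')⟦(1 : ℤ)⟧' =
        f⟦n + 1⟧' ≫ (shiftFunctorAdd' D n 1 (n + 1) rfl).hom.app B := h2.symm
      rw [h3, reassoc_of% hu', zero_comp, smul_zero])
    refine ⟨n.negOnePow • w, ?_⟩
    change (n.negOnePow • w) ≫ h⟦n⟧' ≫ (shiftFunctorAdd' D 1 n (n + 1) (by ring)).inv.app A = u
    have h4 : u = (w ≫ (n.negOnePow • (h⟦n⟧' ≫ (shiftFunctorComm D 1 n).hom.app A))) ≫
        (shiftFunctorAdd' D n 1 (n + 1) rfl).inv.app A := by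
      rw [← hw, Category.assoc, Iso.hom_inv_id_app]
      exact (Category.comp_id u).symm
    rw [h4, shiftFunctorComm_eq D 1 n (n + 1) (by ring)]
    simp [Linear.comp_units_smul, Linear.units_smul_comp]
  · rintro ⟨w, rfl⟩
    change (w ≫ h⟦n⟧' ≫ (shiftFunctorAdd' D 1 n (n + 1) (by ring)).inv.app A) ≫ f⟦n + 1⟧' = 0
    have h2 : (shiftFunctorAdd' D 1 n (n + 1) (by ring)).inv.app A ≫ f⟦n + 1⟧' =
      (f⟦(1 : ℤ)⟧')⟦n⟧' ≫ (shiftFunctorAdd' D 1 n (n + 1) (by ring)).inv.app B :=
      ((shiftFunctorAdd' D 1 n (n + 1) (by ring)).inv.naturality f).symm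
    rw [Category.assoc, Category.assoc, h2, ← Functor.map_comp_assoc]
    have : h ≫ f⟦(1 : ℤ)⟧' = 0 := comp_distTriang_mor_zero₃₁ _ hT
    rw [this, Functor.map_zero, zero_comp, comp_zero]

end triangle

/-- finite support of the alternating sum -/
theorem supp_fin (hCY : IsCY3 k D) (X Y : D) :
    (Function.support fun n : ℤ => ((n.negOnePow : ℤˣ) : ℤ) * (hd k X Y n : ℤ)).Finite := by
  refine (hCY.bdd X Y).subset ?_
  intro n hn
  simp only [Function.mem_support, ne_eq] at hn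
  simp only [Set.mem_ofPred_eq]
  intro h
  apply hn
  rw [h]; simp

/-- additivity of `chi` in the second variable -/
theorem chi_add_right (hCY : IsCY3 k D) (X : D) : AddCl (fun Y : D => chi k X Y) := by
  intro A B C f g h hT
  have fA : ∀ n : ℤ, Module.Finite k (X ⟶ A⟦n⟧) := fun n => hCY.fin _ _
  have fB : ∀ n : ℤ, Module.Finite k (X ⟶ B⟦n⟧) := fun n => hCY.fin _ _
  have fC : ∀ n : ℤ, Module.Finite k (X ⟶ C⟦n⟧) := fun n => hCY.fin _ _
  let c : ℤ → ℕ := fun n => Module.finrank k (LinearMap.ker (postMap (k := k) X f n))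
  let a : ℤ → ℕ := fun n => Module.finrank k (LinearMap.range (postMap (k := k) X f n))
  let b : ℤ → ℕ := fun n => Module.finrank k (LinearMap.range (postMap (k := k) X g n))
  have hA : ∀ n, hd k X A n = a n + c n := fun n => by
    have := LinearMap.finrank_range_add_finrank_ker (postMap (k := k) X f n)
    exact this.symm
  have hB : ∀ n, hd k X B n = b n + a n := fun n => by
    have := LinearMap.finrank_range_add_finrank_ker (postMap (k := k) X g n)
    rw [ker_post_g hT X n] at this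
    exact this.symm
  have hC : ∀ n, hd k X C n = c (n + 1) + b n := fun n => by
    have := LinearMap.finrank_range_add_finrank_ker (bdMap (k := k) X h n)
    rw [ker_bd hT X n, ← ker_post_f hT X n] at this
    exact this.symm
  have sc : (Function.support fun n : ℤ => ((n.negOnePow : ℤˣ) : ℤ) * (c n : ℤ)).Finite := by
    refine (hCY.bdd X A).subset ?_
    intro n hn
    simp only [Function.mem_support, ne_eq] at hn
    simp only [Set.mem_ofPred_eq]
    intro h0
    apply hn
    have : c n = 0 := by have := hA n; omega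
    rw [this]; simp
  have sc1 : (Function.support fun n : ℤ =>
      (((n + 1).negOnePow : ℤˣ) : ℤ) * (c (n + 1) : ℤ)).Finite := by
    have := sc.preimage ((add_left_injective (1 : ℤ)).injOn)
    exact this
  have e1 : ∑ᶠ n : ℤ, (((n + 1).negOnePow : ℤˣ) : ℤ) * (c (n + 1) : ℤ) =
      ∑ᶠ n : ℤ, ((n.negOnePow : ℤˣ) : ℤ) * (c n : ℤ) :=
    finsum_comp_equiv (Equiv.addRight (1 : ℤ))
      (f := fun n : ℤ => ((n.negOnePow : ℤˣ) : ℤ) * (c n : ℤ))
  have e2 : chi k X A + chi k X C - chi k X B =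
      ∑ᶠ n : ℤ, (((n.negOnePow : ℤˣ) : ℤ) * (c n : ℤ) -
        (((n + 1).negOnePow : ℤˣ) : ℤ) * (c (n + 1) : ℤ)) := by
    unfold chi
    rw [← finsum_add_distrib (supp_fin hCY X A) (supp_fin hCY X C),
      ← finsum_sub_distrib _ (supp_fin hCY X B)]
    · apply finsum_congr
      intro n
      rw [hA n, hB n, hC n, Int.negOnePow_succ]
      push_cast
      ring
    · exact ((supp_fin hCY X A).union (supp_fin hCY X C)).subset (Function.support_add _ _)
  rw [finsum_sub_distrib sc sc1, e1, sub_self] at e2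
  change chi k X B = chi k X A + chi k X C
  linarith

theorem chi_skew (hCY : IsCY3 k D) (X Y : D) : chi k X Y = - chi k Y X := by
  unfold chi
  rw [← finsum_comp_equiv (Equiv.subLeft (3 : ℤ)), ← finsum_neg_distrib]
  apply finsum_congr
  intro n
  simp only [Equiv.subLeft_apply]
  rw [hCY.cy X Y (3 - n)]
  have h1 : ((3 - n : ℤ).negOnePow : ℤˣ) = - n.negOnePow := by
    rw [Int.negOnePow_sub]
    have : (3 : ℤ).negOnePow = -1 := by decide
    rw [this]; simp
  rw [h1]
  have : (3 : ℤ) - (3 - n) = n := by ring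
  rw [this]
  push_cast
  ring

theorem chi_add_left (hCY : IsCY3 k D) (Y : D) : AddCl (fun X : D => chi k X Y) := by
  intro A B C f g h hT
  have := chi_add_right hCY Y A B C f g h hT
  simp only at this ⊢
  rw [chi_skew hCY B Y, chi_skew hCY A Y, chi_skew hCY C Y, this]
  ring

theorem chi_self (hCY : IsCY3 k D) (X : D) : chi k X X = 0 := by
  have := chi_skew hCY X X
  omega

/-- `Hom(X, ∏ S_j [n])` -/
theorem hd_fan {m : ℕ} {Y : D} {S : Fin m → D} (p : ∀ j, Y ⟶ S j)
    (hp : IsLimit (Fan.mk Y p)) (hfin : ∀ X Y : D, Module.Finite k (X ⟶ Y)) (X : D) (n : ℤ) :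
    hd k X Y n = ∑ j, hd k X (S j) n := by
  have hl : IsLimit (Fan.mk (Y⟦n⟧) fun j => (p j)⟦n⟧') :=
    isLimitFanMkObjOfIsLimit (shiftFunctor D n) _ _ hp
  let L : (X ⟶ Y⟦n⟧) →ₗ[k] ((j : Fin m) → (X ⟶ (S j)⟦n⟧)) :=
    { toFun := fun u j => u ≫ (p j)⟦n⟧'
      map_add' := by intro a b; ext j; simp
      map_smul' := by intro a b; ext j; simp }
  have hb : Function.Bijective L := by
    constructor
    · intro u w huw
      exact Fan.IsLimit.hom_ext hl _ _ fun j => congrFun huw j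
    · intro w
      refine ⟨Fan.IsLimit.lift hl w, ?_⟩
      ext j
      exact Fan.IsLimit.fac hl w j
  have := (LinearEquiv.ofBijective L hb).finrank_eq
  unfold hd
  rw [this]
  have : ∀ j, Module.Finite k (X ⟶ (S j)⟦n⟧) := fun j => hfin _ _
  rw [Module.finrank_pi_fintype]

/-- The Euler form of two objects like different simples of a heart. -/
theorem chi_eq_of (hCY : IsCY3 k D) {X Y : D} (hX : ∀ n : ℤ, n < 0 → hd k X Y n = 0)
    (hY : ∀ n : ℤ, n < 0 → hd k Y X n = 0) (h0 : hd k X Y 0 = hd k Y X 0) :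
    chi k X Y = (hd k Y X 1 : ℤ) - hd k X Y 1 := by
  unfold chi
  have hs : (Function.support fun n : ℤ => ((n.negOnePow : ℤˣ) : ℤ) * (hd k X Y n : ℤ)) ⊆
      (({0, 1, 2, 3} : Finset ℤ) : Set ℤ) := by
    intro n hn
    simp only [Function.mem_support, ne_eq] at hn
    by_contra hn'
    apply hn
    have hn2 : n < 0 ∨ 3 < n := by
      simp only [Finset.coe_insert, Finset.coe_singleton, Set.mem_insert_iff,
        Set.mem_singleton_iff, not_or] at hn'
      omega
    rcases hn2 with h | h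
    · rw [hX n h]; simp
    · rw [hCY.cy X Y n, hY (3 - n) (by omega)]; simp
  rw [finsum_eq_sum_of_support_subset _ hs]
  have h3 : hd k X Y 3 = hd k Y X 0 := hCY.cy X Y 3
  have h2 : hd k X Y 2 = hd k Y X 1 := hCY.cy X Y 2
  have n1 : ((1 : ℤ).negOnePow : ℤˣ) = -1 := by decide
  have n2 : ((2 : ℤ).negOnePow : ℤˣ) = 1 := by decide
  have n3 : ((3 : ℤ).negOnePow : ℤˣ) = -1 := by decide
  rw [Finset.sum_insert (by decide), Finset.sum_insert (by decide), Finset.sum_insert (by decide),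
    Finset.sum_singleton, h3, h2, h0, n1, n2, n3]
  simp
  ring

/-- The Euler form in terms of the classes. -/
theorem chi_form (hCY : IsCY3 k D) {n : ℕ} (S : Fin n → D)
    (hgen : Gen S)
    (hneg : ∀ a b (m : ℤ), m < 0 → hd k (S a) (S b) m = 0)
    (hzero : ∀ a b, a ≠ b → hd k (S a) (S b) 0 = 0)
    {cls : D → Fin n → ℤ} (hcls : AddCl cls) (hS : ∀ i, cls (S i) = Pi.single i 1) (X Y : D) :
    chi k X Y = - ∑ a, ∑ b, cls X a * ((hd k (S a) (S b) 1 : ℤ) - hd k (S b) (S a) 1) *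
      cls Y b := by
  have hab : ∀ a b, chi k (S a) (S b) = (hd k (S b) (S a) 1 : ℤ) - hd k (S a) (S b) 1 := by
    intro a b
    by_cases hne : a = b
    · subst hne
      rw [chi_self hCY]; ring
    · exact chi_eq_of hCY (hneg a b) (hneg b a) (by rw [hzero a b hne, hzero b a (Ne.symm hne)])
  rw [(chi_add_left hCY Y).eq_sum hgen hcls hS X, ← Finset.sum_neg_distrib]
  refine Finset.sum_congr rfl fun a _ => ?_
  rw [(chi_add_right hCY (S a)).eq_sum hgen hcls hS Y, Finset.smul_sum,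
    ← Finset.sum_neg_distrib]
  refine Finset.sum_congr rfl fun b _ => ?_
  simp only [smul_eq_mul]
  rw [hab a b]
  ring

/-- The difference of the two `ext¹` is the skew form of the classes. -/
theorem ext_sub (hCY : IsCY3 k D) {n : ℕ} (S : Fin n → D)
    (hgen : Gen S)
    (hneg : ∀ a b (m : ℤ), m < 0 → hd k (S a) (S b) m = 0)
    (hzero : ∀ a b, a ≠ b → hd k (S a) (S b) 0 = 0)
    {cls : D → Fin n → ℤ} (hcls : AddCl cls) (hS : ∀ i, cls (S i) = Pi.single i 1)
    (B : Fin n → Fin n → ℤ)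
    (hB : ∀ a b, B a b = (hd k (S a) (S b) 1 : ℤ) - hd k (S b) (S a) 1)
    {X Y : D} (hX : ∀ m : ℤ, m < 0 → hd k X Y m = 0) (hY : ∀ m : ℤ, m < 0 → hd k Y X m = 0)
    (h0 : hd k X Y 0 = hd k Y X 0) :
    (hd k X Y 1 : ℤ) - hd k Y X 1 = ∑ a, ∑ b, cls X a * B a b * cls Y b := by
  have h1 := chi_form hCY S hgen hneg hzero hcls hS X Y
  rw [chi_eq_of hCY hX hY h0] at h1
  simp only [hB]
  linarith

/-- Without 2-cycles the `ext¹` numbers themselves are given by the skew form. -/
theorem ext_eq_max (hCY : IsCY3 k D) {n : ℕ} (S : Fin n → D)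
    (hgen : Gen S)
    (hneg : ∀ a b (m : ℤ), m < 0 → hd k (S a) (S b) m = 0)
    (hzero : ∀ a b, a ≠ b → hd k (S a) (S b) 0 = 0)
    {cls : D → Fin n → ℤ} (hcls : AddCl cls) (hS : ∀ i, cls (S i) = Pi.single i 1)
    (B : Fin n → Fin n → ℤ)
    (hB : ∀ a b, B a b = (hd k (S a) (S b) 1 : ℤ) - hd k (S b) (S a) 1)
    {X Y : D} (hX : ∀ m : ℤ, m < 0 → hd k X Y m = 0) (hY : ∀ m : ℤ, m < 0 → hd k Y X m = 0)
    (h0 : hd k X Y 0 = hd k Y X 0) (h2 : hd k X Y 1 = 0 ∨ hd k Y X 1 = 0) :
    (hd k X Y 1 : ℤ) = max (∑ a, ∑ b, cls X a * B a b * cls Y b) 0 := by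
  rw [← ext_sub hCY S hgen hneg hzero hcls hS B hB hX hY h0]
  rcases h2 with h | h <;> rw [h] <;> omega

/-- The mutation rule for a skew form: `c` the classes of the simples, `B a b = om (c a) (c b)`,
`c'` the classes after the forward tilt at `i` with `e a = max (B a i) 0`. -/
theorem mutation_rule {n : ℕ} (om : (Fin n → ℤ) → (Fin n → ℤ) → ℤ)
    (hadd : ∀ x y z, om (x + y) z = om x z + om y z) (hsmul : ∀ (r : ℤ) x z, om (r • x) z = r * om x z)
    (hskew : ∀ x y, om x y = - om y x) (c c' : Fin n → Fin n → ℤ) (i : Fin n)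
    (hi : c' i = - c i) (hj : ∀ j, j ≠ i → c' j = c j + max (om (c j) (c i)) 0 • c i)
    (a b : Fin n) :
    om (c' a) (c' b) = if a = i ∨ b = i then - om (c a) (c b) else
      om (c a) (c b) + max (om (c b) (c i)) 0 * om (c a) (c i) +
        max (om (c a) (c i)) 0 * om (c i) (c b) := by
  have hadd' : ∀ x y z, om x (y + z) = om x y + om x z := fun x y z => by
    rw [hskew, hadd, hskew x y, hskew x z]; ring
  have hsmul' : ∀ (r : ℤ) x z, om x (r • z) = r * om x z := fun r x z => by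
    rw [hskew, hsmul, hskew x z]; ring
  have hneg : ∀ x z, om (-x) z = - om x z := fun x z => by
    have := hsmul (-1) x z
    simpa using this
  have hneg' : ∀ x z, om x (-z) = - om x z := fun x z => by
    rw [hskew, hneg, hskew x z]
  have hself : ∀ x, om x x = 0 := fun x => by have := hskew x x; omega
  by_cases ha : a = i
  · subst ha
    rw [if_pos (Or.inl rfl)]
    by_cases hb : b = a
    · subst hb
      rw [hself, hself]; simp
    · rw [hi, hj b hb, hneg, hadd', hsmul', hself]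
      ring
  · by_cases hb : b = i
    · subst hb
      rw [if_pos (Or.inr rfl), hi, hj a ha, hneg', hadd, hsmul, hself]
      ring
    · rw [if_neg (by tauto), hj a ha, hj b hb, hadd, hadd', hadd', hsmul, hsmul, hsmul', hsmul',
        hself]
      ring

end Hd

end EGr
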