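import Pool.Agent.Lib_MP_a23b08_t.T2Int

/-!
# MP_a23b08_al, part T2: the combinatorics of mutations of classes
-/

namespace EGr

open MPa23

theorem om_add_left (x y z : Fin 6 → ℤ) : om (x + y) z = om x z + om y z := by
  simp only [om, Pi.add_apply, add_mul, Finset.sum_add_distrib]

theorem om_add_right (x y z : Fin 6 → ℤ) : om x (y + z) = om x y + om x z := by
  simp only [om, Pi.add_apply, mul_add, Finset.sum_add_distrib]

theorem om_smul_left (c : ℤ) (x z : Fin 6 → ℤ) : om (c • x) z = c * om x z := by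
  simp only [om, Pi.smul_apply, smul_eq_mul, Finset.mul_sum]
  refine Finset.sum_congr rfl fun a _ => Finset.sum_congr rfl fun b _ => ?_
  ring

theorem om_smul_right (c : ℤ) (x z : Fin 6 → ℤ) : om x (c • z) = c * om x z := by
  simp only [om, Pi.smul_apply, smul_eq_mul, Finset.mul_sum]
  refine Finset.sum_congr rfl fun a _ => Finset.sum_congr rfl fun b _ => ?_
  ring

theorem om_neg_left (x z : Fin 6 → ℤ) : om (-x) z = - om x z := by
  have := om_smul_left (-1) x z
  simpa using this

theorem om_neg_right (x z : Fin 6 → ℤ) : om x (-z) = - om x z := by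
  have := om_smul_right (-1) x z
  simpa using this

theorem B0_skew : ∀ a b : Fin 6, B0 a b = - B0 b a := by decide +kernel

theorem om_skew (x y : Fin 6 → ℤ) : om x y = - om y x := by
  simp only [om]
  rw [Finset.sum_comm, ← Finset.sum_neg_distrib]
  refine Finset.sum_congr rfl fun a _ => ?_
  rw [← Finset.sum_neg_distrib]
  refine Finset.sum_congr rfl fun b _ => ?_
  rw [B0_skew b a]
  ring

theorem om_self (x : Fin 6 → ℤ) : om x x = 0 := by
  have := om_skew x x
  omega

theorem om_K10 (x : Fin 6 → ℤ) : om K10 x = 0 := by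
  have h : ∀ b : Fin 6, ∑ a, K10 a * B0 a b = 0 := by decide +kernel
  simp only [om]
  rw [Finset.sum_comm]
  refine Finset.sum_eq_zero fun b _ => ?_
  rw [← Finset.sum_mul, h, zero_mul]

theorem om_K20 (x : Fin 6 → ℤ) : om K20 x = 0 := by
  have h : ∀ b : Fin 6, ∑ a, K20 a * B0 a b = 0 := by decide +kernel
  simp only [om]
  rw [Finset.sum_comm]
  refine Finset.sum_eq_zero fun b _ => ?_
  rw [← Finset.sum_mul, h, zero_mul]

/-- The matrix of the form in terms of the classes. -/
def Bm (C : Fin 6 → Fin 6 → ℤ) (a b : Fin 6) : ℤ := om (C a) (C b)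

theorem Bm_skew (C : Fin 6 → Fin 6 → ℤ) (a b : Fin 6) : Bm C a b = - Bm C b a := om_skew _ _

theorem Bm_self (C : Fin 6 → Fin 6 → ℤ) (a : Fin 6) : Bm C a a = 0 := om_self _

/-- `C'` is the mutation of the classes `C` at `i`. -/
def MutRel (i : Fin 6) (C C' : Fin 6 → Fin 6 → ℤ) : Prop :=
  C' i = - C i ∧ ∀ j, j ≠ i → C' j = C j + (max (Bm C j i) 0) • C i

theorem MutRel.eq_mutC {i : Fin 6} {C C' : Fin 6 → Fin 6 → ℤ} (h : MutRel i C C') :
    C' = mutC i (Bm C) C := by
  funext a b
  by_cases ha : a = i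
  · subst ha
    rw [h.1]
    simp [mutC]
  · rw [h.2 a ha]
    simp [mutC, ha]

theorem MutRel.Bm_eq {i : Fin 6} {C C' : Fin 6 → Fin 6 → ℤ} (h : MutRel i C C') :
    Bm C' = mutB i (Bm C) := by
  funext a b
  by_cases ha : a = i
  · subst ha
    by_cases hb : b = a
    · subst hb
      simp [mutB, Bm_self]
    · simp only [mutB, true_or, if_true]
      show om (C' a) (C' b) = - om (C a) (C b)
      rw [h.1, h.2 b hb, om_neg_left, om_add_right, om_smul_right, om_self]
      ring
  · by_cases hb : b = i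
    · subst hb
      simp only [mutB, or_true, if_true]
      show om (C' a) (C' b) = - om (C a) (C b)
      rw [h.1, h.2 a ha, om_neg_right, om_add_left, om_smul_left, om_self]
      ring
    · simp only [mutB, ha, hb, or_self, if_false]
      have h1 : Bm C' a b = om (C' a) (C' b) := rfl
      rw [h1, h.2 a ha, h.2 b hb, om_add_left, om_add_right, om_add_right, om_smul_left,
        om_smul_left, om_smul_right, om_smul_right, om_self]
      simp only [Bm]
      ring

/-- the sum `∑ k a * C a b` -/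
def cmb (k : Fin 6 → ℤ) (C : Fin 6 → Fin 6 → ℤ) : Fin 6 → ℤ := fun b => ∑ a, k a * C a b

theorem cmb_eq (k : Fin 6 → ℤ) (C : Fin 6 → Fin 6 → ℤ) : cmb k C = ∑ a, k a • C a := by
  funext b
  simp [cmb, Finset.sum_apply]

theorem mutK_mutK_same (i : Fin 6) (C : Fin 6 → Fin 6 → ℤ) (k : Fin 6 → ℤ) :
    mutK i (Bm C) (mutK i (Bm C) k) = k := by
  funext a
  by_cases ha : a = i
  · subst ha
    simp only [mutK, if_true]
    have : ∀ j, (if j = a then -k a + ∑ j, k j * max (Bm C j a) 0 else k j) * max (Bm C j a) 0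
        = k j * max (Bm C j a) 0 := by
      intro j
      by_cases hj : j = a
      · subst hj
        simp [Bm_self]
      · simp [hj]
    rw [Finset.sum_congr rfl fun j _ => this j]
    ring
  · simp [mutK, ha]

theorem MutRel.cmb_mutK {i : Fin 6} {C C' : Fin 6 → Fin 6 → ℤ} (h : MutRel i C C')
    (k : Fin 6 → ℤ) : cmb (mutK i (Bm C) k) C' = cmb k C := by
  funext b
  have e1 : ∀ a, mutK i (Bm C) k a * C' a b = (if a = i then
      (k i - ∑ j, k j * max (Bm C j i) 0) * C i b else 0) +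
      (if a = i then 0 else k a * C a b) + (if a = i then 0 else
      k a * max (Bm C a i) 0 * C i b) := by
    intro a
    by_cases ha : a = i
    · subst ha
      rw [h.1]
      simp only [mutK, if_true, Pi.neg_apply]
      ring
    · rw [h.2 a ha]
      simp only [mutK, ha, if_false, Pi.add_apply, Pi.smul_apply, smul_eq_mul]
      ring
  have e2 : ∀ a, (if a = i then 0 else k a * max (Bm C a i) 0 * C i b) =
      k a * max (Bm C a i) 0 * C i b := by
    intro a
    by_cases ha : a = i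
    · subst ha
      simp [Bm_self]
    · simp [ha]
  have e3 : ∀ a, (if a = i then 0 else k a * C a b) =
      k a * C a b - (if a = i then k i * C i b else 0) := by
    intro a
    by_cases ha : a = i
    · subst ha
      simp
    · simp [ha]
  simp only [cmb]
  rw [Finset.sum_congr rfl fun a _ => e1 a, Finset.sum_add_distrib, Finset.sum_add_distrib,
    Finset.sum_congr rfl fun a _ => e2 a, Finset.sum_congr rfl fun a _ => e3 a,
    Finset.sum_sub_distrib, Finset.sum_ite_eq', Finset.sum_ite_eq', ← Finset.sum_mul]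
  simp only [Finset.mem_univ, if_true]
  ring

theorem MutRel.cmb_mutK' {i : Fin 6} {C C' : Fin 6 → Fin 6 → ℤ} (h : MutRel i C C')
    (k : Fin 6 → ℤ) : cmb (mutK i (Bm C) k) C = cmb k C' := by
  rw [← h.cmb_mutK (mutK i (Bm C) k), mutK_mutK_same]

/-- the rows of `C` are linearly independent -/
def Indep (C : Fin 6 → Fin 6 → ℤ) : Prop := ∀ k, cmb k C = 0 → k = 0

theorem mutK_zero (i : Fin 6) (C : Fin 6 → Fin 6 → ℤ) : mutK i (Bm C) 0 = 0 := by
  funext a
  simp [mutK]

theorem MutRel.indep {i : Fin 6} {C C' : Fin 6 → Fin 6 → ℤ} (h : MutRel i C C')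
    (hC : Indep C) : Indep C' := by
  intro k hk
  rw [← h.cmb_mutK' k] at hk
  have := hC _ hk
  rw [← mutK_mutK_same i C k, this, mutK_zero]

theorem MutRel.indep' {i : Fin 6} {C C' : Fin 6 → Fin 6 → ℤ} (h : MutRel i C C')
    (hC : Indep C') : Indep C := by
  intro k hk
  rw [← h.cmb_mutK k] at hk
  have := hC _ hk
  rw [← mutK_mutK_same i C k, this, mutK_zero]

theorem cmb_sub (k l : Fin 6 → ℤ) (C : Fin 6 → Fin 6 → ℤ) : cmb (k - l) C = cmb k C - cmb l C := by
  funext b
  simp [cmb, sub_mul, Finset.sum_sub_distrib]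

theorem Indep.inj {C : Fin 6 → Fin 6 → ℤ} (hC : Indep C) {k l : Fin 6 → ℤ}
    (h : cmb k C = cmb l C) : k = l := by
  have := hC (k - l) (by rw [cmb_sub, h, sub_self])
  exact sub_eq_zero.1 this

theorem om_cmb (k : Fin 6 → ℤ) (C : Fin 6 → Fin 6 → ℤ) (x : Fin 6 → ℤ) :
    om (cmb k C) x = ∑ a, k a * om (C a) x := by
  simp only [om, cmb, Finset.sum_mul, Finset.mul_sum]
  rw [Finset.sum_congr rfl fun a _ => Finset.sum_comm, Finset.sum_comm]
  refine Finset.sum_congr rfl fun a _ => Finset.sum_congr rfl fun b _ =>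
    Finset.sum_congr rfl fun c _ => ?_
  ring

/-- The combinatorial data of a heart: classes `C` of the simples and coordinates of the two
radical vectors. -/
structure CDat (C : Fin 6 → Fin 6 → ℤ) (k1 k2 : Fin 6 → ℤ) : Prop where
  st : IsSt (Bm C) k1 k2
  e1 : cmb k1 C = K10
  e2 : cmb k2 C = K20
  ind : Indep C

theorem CDat.forward {i : Fin 6} {C C' : Fin 6 → Fin 6 → ℤ} {k1 k2 : Fin 6 → ℤ}
    (h : CDat C k1 k2) (hm : MutRel i C C') :
    CDat C' (mutK i (Bm C) k1) (mutK i (Bm C) k2) := by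
  refine ⟨?_, ?_, ?_, hm.indep h.ind⟩
  · rw [hm.Bm_eq]
    exact h.st.mut i
  · rw [hm.cmb_mutK, h.e1]
  · rw [hm.cmb_mutK, h.e2]

theorem CDat.backward {i : Fin 6} {C C' : Fin 6 → Fin 6 → ℤ} {k1 k2 : Fin 6 → ℤ}
    (h : CDat C' k1 k2) (hm : MutRel i C C') :
    CDat C (mutK i (Bm C) k1) (mutK i (Bm C) k2) := by
  have e1 : cmb (mutK i (Bm C) k1) C = K10 := by rw [hm.cmb_mutK', h.e1]
  have e2 : cmb (mutK i (Bm C) k2) C = K20 := by rw [hm.cmb_mutK', h.e2]
  refine ⟨?_, e1, e2, hm.indep' h.ind⟩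
  have h1 := h.st.mut i
  rw [hm.Bm_eq, mutB_mutB i (Bm C) (Bm_skew C)] at h1
  have key : ∀ k : Fin 6 → ℤ, (∑ j, mutK i (Bm C) k j * Bm C j i = 0) →
      mutK i (mutB i (Bm C)) k = mutK i (Bm C) k := by
    intro k hk
    have := mutK_mutK i (Bm C) (mutK i (Bm C) k) (Bm_skew C) hk
    rwa [mutK_mutK_same] at this
  rw [key k1, key k2] at h1
  · exact h1
  · have := om_cmb (mutK i (Bm C) k2) C (C i)
    rw [e2, om_K20] at this
    exact this.symm
  · have := om_cmb (mutK i (Bm C) k1) C (C i)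
    rw [e1, om_K10] at this
    exact this.symm

theorem cmb_perm (e : Fin 6 ≃ Fin 6) (k : Fin 6 → ℤ) (C : Fin 6 → Fin 6 → ℤ) :
    cmb (fun a => k (e a)) (fun a => C (e a)) = cmb k C := by
  funext b
  simp only [cmb]
  exact Equiv.sum_comp e (fun a => k a * C a b)

theorem CDat.perm {C : Fin 6 → Fin 6 → ℤ} {k1 k2 : Fin 6 → ℤ} (h : CDat C k1 k2)
    (e : Fin 6 ≃ Fin 6) : CDat (fun a => C (e a)) (fun a => k1 (e a)) (fun a => k2 (e a)) := by
  refine ⟨?_, ?_, ?_, ?_⟩
  · obtain ⟨s, σ, hB, h1, h2⟩ := h.st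
    refine ⟨s, σ.trans e.symm, ?_, ?_, ?_⟩
    · intro a b
      have := hB a b
      simpa [Bm] using this
    · intro a
      simpa using h1 a
    · intro a
      simpa using h2 a
  · rw [cmb_perm, h.e1]
  · rw [cmb_perm, h.e2]
  · intro k hk
    have h1 := cmb_perm e (fun a => k (e.symm a)) C
    simp only [Equiv.symm_apply_apply] at h1
    have h2 := h.ind (fun a => k (e.symm a)) (by rw [← h1]; exact hk)
    funext a
    have := congrFun h2 (e a)
    simpa using this

theorem CDat.pos_eq {C : Fin 6 → Fin 6 → ℤ} {k1 k2 l1 l2 : Fin 6 → ℤ} (h : CDat C k1 k2)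
    (h' : CDat C l1 l2) : pos k1 k2 = pos l1 l2 := by
  rw [h.ind.inj (h.e1.trans h'.e1.symm), h.ind.inj (h.e2.trans h'.e2.symm)]

end EGr
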