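import Pool.Agent.Lib_MP_a23b08_t.T2Comb

/-!
# MP_a23b08_al, part T2: the state of a finite heart, invariance along the edges
-/

open CategoryTheory CategoryTheory.Limits CategoryTheory.Triangulated
  CategoryTheory.Pretriangulated

universe v u

namespace EGr

open MPa23 ZeroObject

section
variable {D : Type u} [Category.{v} D] [Preadditive D] [HasZeroObject D] [HasShift D ℤ]
  [∀ n : ℤ, (shiftFunctor D n).Additive] [Pretriangulated D]

/-- A t-structure is determined by its aisle. -/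
theorem tstr_ext {t t' : TStructure D} (h : ∀ X, t.le 0 X ↔ t'.le 0 X) : t = t' := by
  have hle : t.le = t'.le := by
    funext n X
    apply propext
    rw [t.le_iff_isLE, t'.le_iff_isLE, ← t.isLE_shift_iff X n n 0 (by omega),
      ← t'.isLE_shift_iff X n n 0 (by omega), ← t.le_iff_isLE, ← t'.le_iff_isLE]
    exact h _
  have hge : t.ge = t'.ge := by
    funext n X
    apply propext
    rw [t.ge_iff_isGE, t'.ge_iff_isGE, t.isGE_iff_orthogonal (n - 1) n (by omega),
      t'.isGE_iff_orthogonal (n - 1) n (by omega)]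
    simp only [← TStructure.le_iff_isLE, hle]
  cases t
  cases t'
  subst hle
  subst hge
  rfl

section cls
variable {cls : D → Fin 6 → ℤ} (hcls : IsAdd cls)
include hcls

theorem IsAdd.zero {X : D} (hX : IsZero X) : cls X = 0 := by
  have h := hcls (Triangle.mk (𝟙 X) (0 : X ⟶ X) 0)
    ((Triangle.distinguished_iff_of_isZero₃ _ hX).2 (inferInstanceAs (IsIso (𝟙 X))))
  simpa using h

theorem IsAdd.iso {X Y : D} (e : X ≅ Y) : cls X = cls Y := by
  have h := hcls (Triangle.mk e.hom (0 : Y ⟶ 0) 0)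
    ((Triangle.distinguished_iff_of_isZero₃ _ (isZero_zero D)).2
      (inferInstanceAs (IsIso e.hom)))
  have h0 := hcls.zero (isZero_zero D)
  simp only [Triangle.mk_obj₂, Triangle.mk_obj₁, Triangle.mk_obj₃, h0, add_zero] at h
  exact h.symm

theorem IsAdd.shift (X : D) : cls (X⟦(1 : ℤ)⟧) = - cls X := by
  have h := hcls _ (contractible_distinguished₂ X)
  have h0 := hcls.zero (isZero_zero D)
  simp only [Triangle.mk_obj₂, Triangle.mk_obj₁, Triangle.mk_obj₃, h0] at h
  rw [eq_neg_iff_add_eq_zero, add_comm]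
  exact h.symm

end cls

theorem SimpleIn.iso {t : TStructure D} {S S' : D} (h : SimpleIn t S) (e : S ≅ S') :
    SimpleIn t S' := by
  refine ⟨(ObjectProperty.prop_iff_of_iso _ e).1 h.1, fun h0 => h.2.1 (h0.of_iso e), ?_⟩
  intro A B f g w hT hA hB
  refine h.2.2 A B (f ≫ e.inv) (e.hom ≫ g) w ?_ hA hB
  refine isomorphic_distinguished _ hT _ ?_
  refine Triangle.isoMk _ _ (Iso.refl _) e (Iso.refl _) ?_ ?_ ?_
  · show (f ≫ e.inv) ≫ e.hom = 𝟙 A ≫ f
    simp
  · show (e.hom ≫ g) ≫ 𝟙 B = e.hom ≫ g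
    simp
  · show w ≫ (shiftFunctor D 1).map (𝟙 A) = 𝟙 B ≫ w
    simp

/-- Every finite heart has a list of its simple objects. -/
theorem exists_SList {t : TStructure D} (ht : IsFiniteHeart t) :
    ∃ (n : ℕ) (X : Fin n → D), SList t X := by
  classical
  obtain ⟨m, S, hS⟩ := ht.finite
  let σ : Setoid {X : D // SimpleIn t X} :=
    { r := fun a b => Nonempty (a.1 ≅ b.1)
      iseqv := ⟨fun _ => ⟨Iso.refl _⟩, fun ⟨e⟩ => ⟨e.symm⟩, fun ⟨e⟩ ⟨f⟩ => ⟨e ≪≫ f⟩⟩ }
  let F : Quotient σ → Fin m := fun q => (hS q.out.1 q.out.2).choose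
  have hF : Function.Injective F := by
    intro a b hab
    have h1 := (hS a.out.1 a.out.2).choose_spec
    have h2 := (hS b.out.1 b.out.2).choose_spec
    have h3 : Nonempty (a.out.1 ≅ b.out.1) := by
      obtain ⟨e1⟩ := h1
      obtain ⟨e2⟩ := h2
      have h4 : (hS a.out.1 a.out.2).choose = (hS b.out.1 b.out.2).choose := hab
      rw [h4] at e1
      exact ⟨e1 ≪≫ e2.symm⟩
    have h4 : a.out ≈ b.out := h3
    have := Quotient.sound h4
    simpa using this
  have : Finite (Quotient σ) := Finite.of_injective F hF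
  have : Fintype (Quotient σ) := Fintype.ofFinite _
  let e := Fintype.equivFin (Quotient σ)
  refine ⟨Fintype.card (Quotient σ), fun i => (e.symm i).out.1, ?_, ?_, ?_⟩
  · intro i
    exact (e.symm i).out.2
  · intro i j hij
    have h4 : (e.symm i).out ≈ (e.symm j).out := hij
    have := Quotient.sound h4
    simpa using this
  · intro X hX
    refine ⟨e (Quotient.mk σ ⟨X, hX⟩), ?_⟩
    have h5 : (e.symm (e (Quotient.mk σ ⟨X, hX⟩))).out ≈ ⟨X, hX⟩ := by
      rw [Equiv.symm_apply_apply]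
      exact Quotient.mk_out _
    obtain ⟨e5⟩ : Nonempty (_ ≅ _) := h5
    exact ⟨e5.symm⟩

/-- Two lists of the simples of a heart differ by a bijection. -/
theorem SList.perm {t : TStructure D} {n m : ℕ} {X : Fin n → D} {Y : Fin m → D}
    (hX : SList t X) (hY : SList t Y) : ∃ e : Fin n ≃ Fin m, ∀ a, Nonempty (X a ≅ Y (e a)) := by
  have h1 : ∀ a, ∃ b, Nonempty (X a ≅ Y b) := fun a => hY.all _ (hX.simple a)
  choose f hf using h1
  have hinj : Function.Injective f := by
    intro a a' h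
    obtain ⟨e1⟩ := hf a
    obtain ⟨e2⟩ := hf a'
    rw [h] at e1
    exact hX.inj _ _ ⟨e1 ≪≫ e2.symm⟩
  have hsurj : Function.Surjective f := by
    intro b
    obtain ⟨a, ⟨e1⟩⟩ := hX.all _ (hY.simple b)
    obtain ⟨e2⟩ := hf a
    exact ⟨a, (hY.inj _ _ ⟨e1 ≪≫ e2⟩).symm⟩
  exact ⟨Equiv.ofBijective f ⟨hinj, hsurj⟩, hf⟩

/-- The data of a state of the heart of `t`. -/
structure Dat (cls : D → Fin 6 → ℤ) (t : TStructure D) (X : Fin 6 → D) (k1 k2 : Fin 6 → ℤ) :
    Prop where
  sl : SList t X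
  dat : CDat (fun a => cls (X a)) k1 k2

/-- The heart of `t` has a state. -/
def HasDat (cls : D → Fin 6 → ℤ) (t : TStructure D) : Prop :=
  ∃ (X : Fin 6 → D) (k1 k2 : Fin 6 → ℤ), Dat cls t X k1 k2

section
variable {cls : D → Fin 6 → ℤ} (hcls : IsAdd cls)
include hcls

theorem Dat.change {t : TStructure D} {X Y : Fin 6 → D} {k1 k2 : Fin 6 → ℤ}
    (h : Dat cls t X k1 k2) (hY : SList t Y) :
    ∃ e : Fin 6 ≃ Fin 6, Dat cls t Y (fun a => k1 (e a)) (fun a => k2 (e a)) := by
  obtain ⟨e, he⟩ := hY.perm h.sl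
  refine ⟨e, hY, ?_⟩
  have : (fun a => cls (Y a)) = fun a => cls (X (e a)) := by
    funext a
    obtain ⟨i⟩ := he a
    exact hcls.iso i
  rw [this]
  exact h.dat.perm e

theorem Dat.pos_eq {t : TStructure D} {X Y : Fin 6 → D} {k1 k2 l1 l2 : Fin 6 → ℤ}
    (h : Dat cls t X k1 k2) (h' : Dat cls t Y l1 l2) : pos k1 k2 = pos l1 l2 := by
  obtain ⟨e, he⟩ := h.change hcls h'.sl
  rw [← he.dat.pos_eq h'.dat, pos_comp]

end

open Classical in
/-- The position of a heart on the 8-cycle. -/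
noncomputable def posT (cls : D → Fin 6 → ℤ) (t : TStructure D) : ZMod 8 :=
  if h : HasDat cls t then
    pos h.choose_spec.choose h.choose_spec.choose_spec.choose else 0

theorem Dat.posT_eq {cls : D → Fin 6 → ℤ} (hcls : IsAdd cls) {t : TStructure D} {X : Fin 6 → D}
    {k1 k2 : Fin 6 → ℤ} (h : Dat cls t X k1 k2) : posT cls t = pos k1 k2 := by
  have hd : HasDat cls t := ⟨X, k1, k2, h⟩
  rw [posT, dif_pos hd]
  exact hd.choose_spec.choose_spec.choose_spec.pos_eq hcls h

end

section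
variable {k : Type} [Field k] {D : Type u} [Category.{v} D] [Preadditive D] [HasZeroObject D]
  [HasShift D ℤ] [∀ n : ℤ, (shiftFunctor D n).Additive] [Pretriangulated D] [Linear k D]

/-- The dimension of `Ext¹` between simple objects of a non-degenerate heart. -/
theorem ext_dim {cls : D → Fin 6 → ℤ} (hE : EulerStmt k D cls) {t : TStructure D}
    (ht : IsFiniteHeart t) (hnd : NonDeg t) {S T : D} (hS : SimpleIn t S) (hT : SimpleIn t T) :
    (Module.finrank k (S ⟶ T⟦(1 : ℤ)⟧) : ℤ) = max (om (cls S) (cls T)) 0 := by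
  have h := hE t ht S T hS hT
  have hz : ∀ {X Y : D}, (∀ f : X ⟶ Y, f = 0) → Module.finrank k (X ⟶ Y) = 0 := by
    intro X Y h0
    have : Subsingleton (X ⟶ Y) := ⟨fun a b => by rw [h0 a, h0 b]⟩
    exact Module.finrank_zero_of_subsingleton
  rcases hnd.2 S T hS hT with h0 | h0
  · rw [hz h0] at h ⊢
    have : om (cls S) (cls T) ≤ 0 := by
      rw [← h]
      push_cast
      omega
    rw [max_eq_right this]
    rfl
  · rw [hz h0] at h
    rw [← h]
    push_cast
    rw [sub_zero, max_eq_left (by positivity)]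

/-- The forward tilt at a simple object, as a mutation of the classes; `X` lists the simples of `t`.
-/
theorem tilt_spec (hT : TiltStmt k D) {cls : D → Fin 6 → ℤ} (hcls : IsAdd cls)
    (hE : EulerStmt k D cls) {t : TStructure D} (ht : IsFiniteHeart t) (hnd : NonDeg t) {n : ℕ}
    {X : Fin n → D} (hX : SList t X) (i : Fin n) :
    ∃ (t' : TStructure D) (X' : Fin n → D), IsFwdTilt t (X i) t' ∧ IsFiniteHeart t' ∧
      SList t' X' ∧ cls (X' i) = - cls (X i) ∧
      ∀ j, j ≠ i → cls (X' j) = cls (X j) + (max (om (cls (X j)) (cls (X i))) 0) • cls (X i) := by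
  obtain ⟨t', X', h1, h2, h3, ⟨e⟩, h5⟩ := hT t ht n X hX i (hnd.1 _ (hX.simple i))
  refine ⟨t', X', h1, h2, h3, ?_, ?_⟩
  · rw [hcls.iso e, hcls.shift]
  · intro j hj
    rw [h5 j hj cls hcls, ← ext_dim hE ht hnd (hX.simple j) (hX.simple i)]
    simp

theorem fwdTilt_iso (hL : LeStmt D) {t t' t'' : TStructure D} {S S' : D} (ht : IsFiniteHeart t)
    (ht' : IsFiniteHeart t') (ht'' : IsFiniteHeart t'') (h : IsFwdTilt t S t')
    (h' : IsFwdTilt t S' t'') (e : S ≅ S') : t' = t'' := by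
  apply tstr_ext
  intro X
  rw [hL t t' S ht ht' h, hL t t'' S' ht ht'' h']
  refine and_congr Iff.rfl ⟨fun h f => ?_, fun h f => ?_⟩
  · have := h (f ≫ e.inv)
    rw [← cancel_mono e.inv, this, zero_comp]
  · have := h (f ≫ e.hom)
    rw [← cancel_mono e.hom, this, zero_comp]

/-- The structure of an arbitrary edge. -/
theorem edge_spec (hT : TiltStmt k D) (hL : LeStmt D) {cls : D → Fin 6 → ℤ} (hcls : IsAdd cls)
    (hE : EulerStmt k D cls) {t t' : TStructure D} {S : D} (ht : IsFiniteHeart t)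
    (ht' : IsFiniteHeart t') (hnd : NonDeg t) (h : IsFwdTilt t S t') {n : ℕ}
    {X : Fin n → D} (hX : SList t X) :
    ∃ (i : Fin n) (X' : Fin n → D), SList t' X' ∧ cls (X' i) = - cls (X i) ∧
      ∀ j, j ≠ i → cls (X' j) = cls (X j) + (max (om (cls (X j)) (cls (X i))) 0) • cls (X i) := by
  obtain ⟨i, ⟨e⟩⟩ := hX.all S h.1
  obtain ⟨t'', X', h1, h2, h3, h4, h5⟩ := tilt_spec hT hcls hE ht hnd hX i
  have : t' = t'' := fwdTilt_iso hL ht ht' h2 h h1 e
  subst this
  exact ⟨i, X', h3, h4, h5⟩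

/-- The state moves along an edge, in both directions. -/
theorem HasDat.edge_iff (hT : TiltStmt k D) (hL : LeStmt D) {cls : D → Fin 6 → ℤ}
    (hcls : IsAdd cls) (hE : EulerStmt k D cls) {t t' : TStructure D} {S : D}
    (ht : IsFiniteHeart t) (ht' : IsFiniteHeart t') (hnd : NonDeg t) (h : IsFwdTilt t S t') :
    HasDat cls t ↔ HasDat cls t' := by
  constructor
  · rintro ⟨X, k1, k2, hd⟩
    obtain ⟨i, X', h1, h2, h3⟩ := edge_spec hT hL hcls hE ht ht' hnd h hd.sl
    have hm : MutRel i (fun a => cls (X a)) (fun a => cls (X' a)) := ⟨h2, h3⟩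
    exact ⟨X', _, _, h1, hd.dat.forward hm⟩
  · rintro ⟨Y, k1, k2, hd⟩
    obtain ⟨n, X, hX⟩ := exists_SList ht
    obtain ⟨i, X', h1, h2, h3⟩ := edge_spec hT hL hcls hE ht ht' hnd h hX
    obtain ⟨e, -⟩ := h1.perm hd.sl
    have hn : n = 6 := by simpa using Fintype.card_congr e
    subst hn
    obtain ⟨f, hd'⟩ := hd.change hcls h1
    have hm : MutRel i (fun a => cls (X a)) (fun a => cls (X' a)) := ⟨h2, h3⟩
    exact ⟨X, _, _, hX, hd'.dat.backward hm⟩

/-- The position moves by at most one step along an edge. -/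
theorem HasDat.step (hT : TiltStmt k D) (hL : LeStmt D) {cls : D → Fin 6 → ℤ}
    (hcls : IsAdd cls) (hE : EulerStmt k D cls) {t t' : TStructure D} {S : D}
    (ht : IsFiniteHeart t) (ht' : IsFiniteHeart t') (hnd : NonDeg t) (h : IsFwdTilt t S t')
    (hd : HasDat cls t) : posT cls t' - posT cls t = 0 ∨ posT cls t' - posT cls t = 1 ∨
      posT cls t' - posT cls t = -1 := by
  obtain ⟨X, k1, k2, hd⟩ := hd
  obtain ⟨i, X', h1, h2, h3⟩ := edge_spec hT hL hcls hE ht ht' hnd h hd.sl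
  have hm : MutRel i (fun a => cls (X a)) (fun a => cls (X' a)) := ⟨h2, h3⟩
  have hd' : Dat cls t' X' _ _ := ⟨h1, hd.dat.forward hm⟩
  rw [hd.posT_eq hcls, hd'.posT_eq hcls]
  exact hd.dat.st.step i

end

end EGr
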