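import Pool.Agent.Lib_MP_a23b08_t.TDef

/-!
# The winding functor on the exchange groupoid
-/

open CategoryTheory CategoryTheory.Limits CategoryTheory.Triangulated
  CategoryTheory.Pretriangulated

universe v u

namespace EGr

/-- The step from `x` to `y` on the 8-cycle. -/
def stp (x y : ZMod 8) : ℤ := if y = x then 0 else if y = x + 1 then 1 else -1

/-- `y` is at distance at most one from `x` on the 8-cycle. -/
def Near (x y : ZMod 8) : Prop := y = x ∨ y = x + 1 ∨ y = x - 1

theorem abs_stp (x y : ZMod 8) : |stp x y| ≤ 1 := by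
  unfold stp
  split_ifs <;> simp

theorem stp_cast {x y : ZMod 8} (h : Near x y) : ((stp x y : ℤ) : ZMod 8) = y - x := by
  unfold stp
  split_ifs with h1 h2
  · rw [h1]; simp
  · rw [h2]; simp
  · rcases h with h | h | h
    · exact absurd h h1
    · exact absurd h h2
    · rw [h]; simp

theorem eq_of_cast_eq {a b : ℤ} (h : (a : ZMod 8) = (b : ZMod 8)) (h1 : |a - b| ≤ 7) : a = b := by
  have h2 : ((a - b : ℤ) : ZMod 8) = 0 := by push_cast; rw [h, sub_self]
  rw [ZMod.intCast_zmod_eq_zero_iff_dvd] at h2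
  have h3 : a - b = 0 := Int.eq_zero_of_abs_lt_dvd h2 (by push_cast; omega)
  omega

section
variable {k : Type} [Field k] {D : Type u} [Category.{v} D] [Preadditive D] [HasZeroObject D]
  [HasShift D ℤ] [∀ n : ℤ, (shiftFunctor D n).Additive] [Pretriangulated D] [Linear k D]
  {t₀ : TStructure D}

/-- The prefunctor to `ℤ` given by the steps. -/
def wPre (σ : Vertex t₀ → ZMod 8) : Vertex t₀ ⥤q SingleObj (Multiplicative ℤ) where
  obj _ := SingleObj.star _
  map {a b} _ := Multiplicative.ofAdd (stp (σ a) (σ b))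

/-- The winding functor on the free groupoid. -/
def wFun (σ : Vertex t₀ → ZMod 8) : FG t₀ ⥤ SingleObj (Multiplicative ℤ) :=
  Quiver.FreeGroupoid.lift (wPre σ)

/-- The winding number of an arrow of the free groupoid. -/
def wd (σ : Vertex t₀ → ZMod 8) {a b : FG t₀} (f : a ⟶ b) : ℤ :=
  Multiplicative.toAdd ((wFun σ).map f : Multiplicative ℤ)

theorem wd_of (σ : Vertex t₀ → ZMod 8) {a b : Vertex t₀} (f : a ⟶ b) :
    wd σ (a := vx a) (b := vx b) ((Quiver.FreeGroupoid.of (Vertex t₀)).map f) = stp (σ a) (σ b) := by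
  have h := Quiver.FreeGroupoid.lift_spec (wPre σ)
  have h2 := Prefunctor.congr_hom h f
  simp only [Quiver.homOfEq_rfl] at h2
  have h1 : (Quiver.FreeGroupoid.lift (wPre σ)).map ((Quiver.FreeGroupoid.of (Vertex t₀)).map f) =
    (wPre σ).map f := h2
  exact congrArg (fun z : Multiplicative ℤ => Multiplicative.toAdd z) h1

theorem wd_comp (σ : Vertex t₀ → ZMod 8) {a b c : FG t₀} (f : a ⟶ b)
    (g : b ⟶ c) : wd σ (f ≫ g) = wd σ f + wd σ g := by
  have h1 : wd σ (f ≫ g) = wd σ g + wd σ f :=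
    congrArg (fun z : Multiplicative ℤ => Multiplicative.toAdd z) ((wFun σ).map_comp f g)
  rw [h1, add_comm]

theorem wd_id (σ : Vertex t₀ → ZMod 8) (a : FG t₀) :
    wd σ (𝟙 a) = 0 := by
  have h := wd_comp σ (𝟙 a) (𝟙 a)
  rw [Category.comp_id] at h
  omega

/-- The inverse of an arrow of the free groupoid. -/
def ivr {a b : FG t₀} (f : a ⟶ b) : b ⟶ a :=
  Groupoid.inv (obj := Quiver.FreeGroupoid (Vertex t₀)) f

theorem comp_ivr {a b : FG t₀} (f : a ⟶ b) : f ≫ ivr f = 𝟙 a :=
  Groupoid.comp_inv (obj := Quiver.FreeGroupoid (Vertex t₀)) f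

theorem wd_inv (σ : Vertex t₀ → ZMod 8) {a b : FG t₀} (f : a ⟶ b) :
    wd σ (ivr f) = - wd σ f := by
  have h := wd_comp σ f (ivr f)
  rw [comp_ivr, wd_id] at h
  omega

theorem wd_arr (σ : Vertex t₀ → ZMod 8) {a b : Vertex t₀} {S : D} (h : IsFwdTilt a.t S b.t) :
    wd σ (arr h) = stp (σ a) (σ b) := wd_of σ _

/-- The relations do not change the winding number. -/
theorem wd_rel {σ : Vertex t₀ → ZMod 8}
    (hσ : ∀ a b : Vertex t₀, (∃ S, IsFwdTilt a.t S b.t) → Near (σ a) (σ b))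
    {a b : FG t₀} {f g : a ⟶ b} (h : Rel k t₀ f g) :
    wd σ f = wd σ g := by
  have key : ∀ a b : Vertex t₀, (∃ S, IsFwdTilt a.t S b.t) →
      ((stp (σ a) (σ b) : ℤ) : ZMod 8) = σ b - σ a := fun a b h => stp_cast (hσ a b h)
  have ab : ∀ a b : Vertex t₀, -1 ≤ stp (σ a) (σ b) ∧ stp (σ a) (σ b) ≤ 1 :=
    fun a b => abs_le.1 (abs_stp (σ a) (σ b))
  induction h with
  | square H Hi Hj K Si Sj hne h1 h2 a1 a2 b1 b2 =>
    simp only [wd_comp, wd_arr]
    apply eq_of_cast_eq
    · push_cast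
      rw [key _ _ ⟨_, a1⟩, key _ _ ⟨_, a2⟩, key _ _ ⟨_, b1⟩, key _ _ ⟨_, b2⟩]
      ring
    · have := ab H Hj; have := ab Hj K; have := ab H Hi; have := ab Hi K
      rw [abs_le]
      constructor <;> linarith
  | pentagon H Hi Hj K L Si Sj Tj hne h1 h2 hT a1 a2 b1 b2 b3 =>
    simp only [wd_comp, wd_arr]
    apply eq_of_cast_eq
    · push_cast
      rw [key _ _ ⟨_, a1⟩, key _ _ ⟨_, a2⟩, key _ _ ⟨_, b1⟩, key _ _ ⟨_, b2⟩, key _ _ ⟨_, b3⟩]
      ring
    · have := ab H Hj; have := ab Hj K; have := ab H Hi; have := ab Hi L; have := ab L K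
      rw [abs_le]
      constructor <;> linarith
  | hexagon H Hi Hj Hji K L Si Sj Tj hne h1 hT a1 a2 a3 b1 b2 b3 =>
    simp only [wd_comp, wd_arr]
    apply eq_of_cast_eq
    · push_cast
      rw [key _ _ ⟨_, a1⟩, key _ _ ⟨_, a2⟩, key _ _ ⟨_, a3⟩, key _ _ ⟨_, b1⟩, key _ _ ⟨_, b2⟩,
        key _ _ ⟨_, b3⟩]
      ring
    · have := ab H Hj; have := ab Hj Hji; have := ab Hji K; have := ab H Hi; have := ab Hi L
      have := ab L K
      rw [abs_le]
      constructor <;> linarith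

/-- The winding functor on the exchange groupoid. -/
def wQ (k : Type) [Field k] [Linear k D] (σ : Vertex t₀ → ZMod 8)
    (hσ : ∀ a b : Vertex t₀, (∃ S, IsFwdTilt a.t S b.t) → Near (σ a) (σ b)) :
    CategoryTheory.Quotient (Rel k t₀) ⥤ SingleObj (Multiplicative ℤ) :=
  CategoryTheory.Quotient.lift (Rel k t₀) (wFun σ) (fun _ _ _ _ h =>
    Multiplicative.toAdd.injective (wd_rel (k := k) hσ h))

/-- The arrow of the free groupoid given by a forward path. -/
def pArr {a b : Vertex t₀} (p : Quiver.Path a b) :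
    vx a ⟶ vx b :=
  match p with
  | Quiver.Path.nil => 𝟙 _
  | @Quiver.Path.cons _ _ _ c d q f => pArr q ≫ (show vx c ⟶ vx d from (Quiver.FreeGroupoid.of (Vertex t₀)).map f)

/-- The winding number of a forward path. -/
def wPath (σ : Vertex t₀ → ZMod 8) {a b : Vertex t₀} (p : Quiver.Path a b) : ℤ :=
  match p with
  | Quiver.Path.nil => 0
  | @Quiver.Path.cons _ _ _ c d q _ => wPath σ q + stp (σ c) (σ d)

theorem wd_pArr (σ : Vertex t₀ → ZMod 8) {a b : Vertex t₀} (p : Quiver.Path a b) :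
    wd σ (pArr p) = wPath σ p := by
  induction p with
  | nil => exact wd_id σ _
  | cons q f ih =>
    refine (wd_comp σ (pArr q) _).trans ?_
    rw [ih]
    exact congrArg (fun z => wPath σ q + z) (wd_of σ f)

/-- Two parallel forward paths with different winding numbers give a nontrivial loop of the exchange
groupoid. -/
theorem not_simplyConnected_of_paths {σ : Vertex t₀ → ZMod 8}
    (hσ : ∀ a b : Vertex t₀, (∃ S, IsFwdTilt a.t S b.t) → Near (σ a) (σ b))
    {a b : Vertex t₀} (p q : Quiver.Path a b) (hpq : wPath σ p ≠ wPath σ q) :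
    ¬ SimplyConnected k t₀ := by
  intro h
  let F := CategoryTheory.Quotient.functor (Rel k t₀)
  have h1 : F.map (pArr p ≫ ivr (pArr q)) = 𝟙 _ := h _ _
  have h2 : wd σ (pArr p ≫ ivr (pArr q)) = 0 := by
    have h3 := congrArg (fun φ => (wQ k σ hσ).map φ) h1
    have h4 : (wFun σ).map (pArr p ≫ ivr (pArr q)) =
        (𝟙 _ : SingleObj.star (Multiplicative ℤ) ⟶ _) := by
      refine Eq.trans ?_ (h3.trans ((wQ k σ hσ).map_id _))
      rfl
    unfold wd
    rw [h4]
    rfl
  rw [wd_comp, wd_inv, wd_pArr, wd_pArr] at h2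
  exact hpq (by omega)

end

end EGr
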