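import Pool.Agent.Lib_MP_a23b08_t.T2Mid
import Pool.Agent.Lib_MP_a23b08_t.TWind

/-!
# MP_a23b08_al, part T2: the two paths and the main theorem modulo T1 and T3
-/

open CategoryTheory CategoryTheory.Limits CategoryTheory.Triangulated
  CategoryTheory.Pretriangulated

universe v u

namespace EGr

open MPa23 ZeroObject

section
variable {D : Type u} [Category.{v} D] [Preadditive D] [HasZeroObject D] [HasShift D ℤ]
  [∀ n : ℤ, (shiftFunctor D n).Additive] [Pretriangulated D]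

theorem near_of {x y : ZMod 8} (h : y - x = 0 ∨ y - x = 1 ∨ y - x = -1) : Near x y := by
  rcases h with h | h | h
  · exact Or.inl (by rw [← sub_eq_zero, h])
  · exact Or.inr (Or.inl (by rw [← h]; ring))
  · exact Or.inr (Or.inr (by linear_combination h))

theorem stp_eq : ∀ x y : ZMod 8, (y - x = 0 ∨ y - x = 1 ∨ y - x = -1) →
    stp x y = stepOf x y := by
  decide +kernel

theorem Vertex.ext' {t₀ : TStructure D} {a b : Vertex t₀} (h : a.t = b.t) : a = b := by
  cases a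
  cases b
  cases h
  rfl

/-- Position of a vertex. -/
noncomputable def posV (cls : D → Fin 6 → ℤ) {t₀ : TStructure D} (a : Vertex t₀) : ZMod 8 :=
  posT cls a.t

/-- The tables of a sequence of mutations. -/
structure Tab (I : ℕ → Fin 6) (c : ℕ → Fin 6 → Fin 6 → ℤ) (κ₁ κ₂ : ℕ → Fin 6 → ℤ) : Prop where
  zero : ∀ a b : Fin 6, c 0 a b = if a = b then 1 else 0
  green : ∀ r : Fin 16, ∀ b : Fin 6, 0 ≤ c r (I r) b
  succ : ∀ (r : Fin 16) (a b : Fin 6),
    mutC (I r) (fun x y => om (c r x) (c r y)) (c r) a b = c (r + 1) a b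
  eq1 : ∀ (r : Fin 17) (b : Fin 6), ∑ a, κ₁ r a * c r a b = K10 b
  eq2 : ∀ (r : Fin 17) (b : Fin 6), ∑ a, κ₂ r a * c r a b = K20 b
  last : ∀ a : Fin 6, ∃ b, c 16 a b < 0

theorem tabA : Tab iA cA k1A k2A := by
  refine ⟨cA_zero, cA_green, cA_succ, k1A_eq, k2A_eq, fun a => ⟨fA a, ?_⟩⟩
  rw [cA_last, if_pos rfl]
  norm_num

theorem tabB' : Tab iB cB k1B k2B := by
  refine ⟨cB_zero, cB_green, cB_succ, k1B_eq, k2B_eq, fun a => ⟨fB a, ?_⟩⟩
  rw [cB_last, if_pos rfl]
  norm_num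

end

section
variable {k : Type} [Field k] {D : Type u} [Category.{v} D] [Preadditive D] [HasZeroObject D]
  [HasShift D ℤ] [∀ n : ℤ, (shiftFunctor D n).Additive] [Pretriangulated D] [Linear k D]

/-- Every vertex has a state. -/
theorem hasDat_vertex (hT : TiltStmt k D) (hL : LeStmt D) {cls : D → Fin 6 → ℤ}
    (hcls : IsAdd cls) (hE : EulerStmt k D cls) {t₀ : TStructure D}
    (hnd : ∀ a : Vertex t₀, NonDeg a.t) (h0 : HasDat cls t₀) (a : Vertex t₀) :
    HasDat cls a.t := by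
  have key : ∀ x y, Relation.EqvGen Edge x y → Relation.EqvGen Edge t₀ x →
      (HasDat cls x ↔ HasDat cls y) := by
    intro x y h
    induction h with
    | rel x y h =>
      intro hx
      obtain ⟨h1, h2, S, h3⟩ := h
      exact HasDat.edge_iff hT hL hcls hE h1 h2 (hnd ⟨x, h1, hx⟩) h3
    | refl x => exact fun _ => Iff.rfl
    | symm x y h ih => exact fun hy => (ih (hy.trans _ _ _ (h.symm _ _))).symm
    | trans x y z h1 h2 ih1 ih2 => exact fun hx => (ih1 hx).trans (ih2 (hx.trans _ _ _ h1))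
  exact (key _ _ a.conn (Relation.EqvGen.refl _)).1 h0

theorem near_vertex (hT : TiltStmt k D) (hL : LeStmt D) {cls : D → Fin 6 → ℤ}
    (hcls : IsAdd cls) (hE : EulerStmt k D cls) {t₀ : TStructure D}
    (hnd : ∀ a : Vertex t₀, NonDeg a.t) (h0 : HasDat cls t₀) (a b : Vertex t₀)
    (h : ∃ S, IsFwdTilt a.t S b.t) : posV cls b - posV cls a = 0 ∨
      posV cls b - posV cls a = 1 ∨ posV cls b - posV cls a = -1 := by
  obtain ⟨S, h⟩ := h
  exact HasDat.step hT hL hcls hE a.finite b.finite (hnd a) h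
    (hasDat_vertex hT hL hcls hE hnd h0 a)

/-- The path of hearts of a table. -/
theorem exists_path (hT : TiltStmt k D) (hL : LeStmt D) {cls : D → Fin 6 → ℤ}
    (hcls : IsAdd cls) (hE : EulerStmt k D cls) {t₀ : TStructure D} (h₀ : IsFiniteHeart t₀)
    (hnd : ∀ a : Vertex t₀, NonDeg a.t) (h0 : HasDat cls t₀) {S : Fin 6 → D}
    (hS : SList t₀ S) (hS1 : ∀ i j, cls (S i) j = if i = j then 1 else 0)
    {I : ℕ → Fin 6} {c : ℕ → Fin 6 → Fin 6 → ℤ} {κ₁ κ₂ : ℕ → Fin 6 → ℤ}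
    (hTab : Tab I c κ₁ κ₂) (v₀ : Vertex t₀) (hv₀ : v₀.t = t₀) (r : ℕ) (hr : r ≤ 16) :
    ∃ (a : Vertex t₀) (X : Fin 6 → D) (p : Quiver.Path v₀ a), SList a.t X ∧
      (∀ i, cls (X i) = c r i) ∧ Mid t₀ a.t ∧ posV cls a = pos (κ₁ r) (κ₂ r) ∧
      wPath (posV cls) p = ∑ s ∈ Finset.range r,
        stepOf (pos (κ₁ s) (κ₂ s)) (pos (κ₁ (s + 1)) (κ₂ (s + 1))) := by
  have hpos : ∀ S', SimpleIn t₀ S' → (∀ b, 0 ≤ cls S' b) ∧ ∃ b, 0 < cls S' b := by
    intro S' hS'
    obtain ⟨i, ⟨e⟩⟩ := hS.all S' hS'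
    rw [hcls.iso e]
    refine ⟨fun b => ?_, i, ?_⟩
    · rw [hS1]
      split_ifs <;> norm_num
    · rw [hS1, if_pos rfl]
      norm_num
  -- the position is read off the tables
  have hposV : ∀ (a : Vertex t₀) (X : Fin 6 → D) (r : ℕ), r ≤ 16 → SList a.t X →
      (∀ i, cls (X i) = c r i) → posV cls a = pos (κ₁ r) (κ₂ r) := by
    intro a X r hr hX hc
    obtain ⟨Y, k1, k2, hd⟩ := hasDat_vertex hT hL hcls hE hnd h0 a
    obtain ⟨e, hd'⟩ := hd.change hcls hX
    have hce : (fun i => cls (X i)) = c r := funext hc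
    have hdat := hd'.dat
    rw [hce] at hdat
    have e1 : cmb (κ₁ r) (c r) = K10 := funext fun b => hTab.eq1 ⟨r, by omega⟩ b
    have e2 : cmb (κ₂ r) (c r) = K20 := funext fun b => hTab.eq2 ⟨r, by omega⟩ b
    rw [posV, hd'.posT_eq hcls, hdat.ind.inj (hdat.e1.trans e1.symm),
      hdat.ind.inj (hdat.e2.trans e2.symm)]
  induction r with
  | zero =>
    have hc : ∀ i, cls (S i) = c 0 i := fun i => funext fun j => by rw [hS1, hTab.zero]
    have hS' : SList v₀.t S := by rw [hv₀]; exact hS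
    have hm' : Mid t₀ v₀.t := by rw [hv₀]; exact Mid.refl t₀
    refine ⟨v₀, S, Quiver.Path.nil, hS', hc, hm', ?_, ?_⟩
    · exact hposV v₀ S 0 (by norm_num) hS' hc
    · simp [wPath]
  | succ r ih =>
    obtain ⟨a, X, p, hX, hc, hmid, hpa, hw⟩ := ih (by omega)
    obtain ⟨t', X', h1, h2, h3, h4, h5⟩ := tilt_spec hT hcls hE a.finite (hnd a) hX (I r)
    have hedge : Edge a.t t' := ⟨a.finite, h2, X (I r), h1⟩
    let b : Vertex t₀ := ⟨t', h2, a.conn.trans _ _ _ (Relation.EqvGen.rel _ _ hedge)⟩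
    have hgreen : t₀.heart (X (I r)) := by
      refine hmid.green hcls h₀ hpos (hX.simple _) fun j => ?_
      rw [hc]
      exact hTab.green ⟨r, by omega⟩ j
    have hc' : ∀ i, cls (X' i) = c (r + 1) i := by
      have hm : MutRel (I r) (fun i => cls (X i)) (fun i => cls (X' i)) := ⟨h4, h5⟩
      have h6 := hm.eq_mutC
      have hce : (fun i => cls (X i)) = c r := funext hc
      rw [hce] at h6
      intro i
      have h7 := congrFun h6 i
      refine h7.trans (funext fun j => ?_)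
      exact hTab.succ ⟨r, by omega⟩ i j
    let f : a ⟶ b := ⟨⟨X (I r), h1⟩⟩
    have hpb : posV cls b = pos (κ₁ (r + 1)) (κ₂ (r + 1)) := hposV b X' (r + 1) hr h3 hc'
    refine ⟨b, X', p.cons f, h3, hc', hmid.tilt hL a.finite h2 h1 hgreen, hpb, ?_⟩
    rw [Finset.sum_range_succ, ← hw, ← hpa, ← hpb, ← stp_eq _ _
      (near_vertex hT hL hcls hE hnd h0 a b ⟨_, h1⟩)]
    rfl

/-- THE ABSTRACT THEOREM, modulo the tilt theorem (T1) and the Euler form (T3). -/
theorem theoremT_of (hT : TiltStmt k D) (hL : LeStmt D) {cls : D → Fin 6 → ℤ}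
    (hcls : IsAdd cls) (hE : EulerStmt k D cls) {t₀ : TStructure D} (h₀ : IsFiniteHeart t₀)
    (hnd : ∀ a : Vertex t₀, NonDeg a.t) {S : Fin 6 → D}
    (hS : SList t₀ S) (hS1 : ∀ i j, cls (S i) j = if i = j then 1 else 0) :
    ¬ SimplyConnected k t₀ := by
  have h0 : HasDat cls t₀ := by
    refine ⟨S, K10, K20, hS, ?_⟩
    have hc : (fun a => cls (S a)) = fun a b => if a = b then (1 : ℤ) else 0 :=
      funext fun a => funext fun b => hS1 a b
    rw [hc]
    refine ⟨?_, ?_, ?_, ?_⟩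
    · have : Bm (fun a b => if a = b then (1 : ℤ) else 0) = B0 := by
        funext a b
        simp [Bm, om]
      rw [this]
      exact isSt_init
    · funext b
      simp [cmb]
    · funext b
      simp [cmb]
    · intro l hl
      funext b
      have := congrFun hl b
      simpa [cmb] using this
  let v₀ : Vertex t₀ := ⟨t₀, h₀, Relation.EqvGen.refl _⟩
  obtain ⟨a, X, p, hX, hXc, hm, -, hw⟩ := exists_path hT hL hcls hE h₀ hnd h0 hS hS1 tabA v₀
    rfl 16 le_rfl
  obtain ⟨b, Y, q, hY, hYc, hm', -, hw'⟩ := exists_path hT hL hcls hE h₀ hnd h0 hS hS1 tabB' v₀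
    rfl 16 le_rfl
  have hpos : ∀ S', SimpleIn t₀ S' → (∀ b, 0 ≤ cls S' b) ∧ ∃ b, 0 < cls S' b := by
    intro S' hS'
    obtain ⟨i, ⟨e⟩⟩ := hS.all S' hS'
    rw [hcls.iso e]
    refine ⟨fun b => ?_, i, ?_⟩
    · rw [hS1]
      split_ifs <;> norm_num
    · rw [hS1, if_pos rfl]
      norm_num
  have hlast : ∀ (d : Vertex t₀) (Z : Fin 6 → D) (c : ℕ → Fin 6 → Fin 6 → ℤ),
      SList d.t Z → (∀ i, cls (Z i) = c 16 i) → Mid t₀ d.t → (∀ i : Fin 6, ∃ j, c 16 i j < 0) →
      ∀ W, d.t.le 0 W ↔ t₀.le (-1) W := by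
    intro d Z c hZ hZc hmid hneg
    refine hmid.last d.finite fun T hT' => ?_
    obtain ⟨i, ⟨e⟩⟩ := hZ.all T hT'
    refine hmid.red hcls h₀ hpos hT' ?_
    rw [hcls.iso e, hZc]
    exact hneg i
  have hab : a = b := by
    apply Vertex.ext'
    apply tstr_ext
    intro W
    rw [hlast a X cA hX hXc hm tabA.last W, hlast b Y cB hY hYc hm' tabB'.last W]
  subst hab
  refine not_simplyConnected_of_paths (σ := posV cls) (fun a b h => near_of
    (near_vertex hT hL hcls hE hnd h0 a b h)) p q ?_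
  rw [hw, hw', Finset.sum_range, Finset.sum_range, windA, windB]
  norm_num

end

end EGr
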