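import Pool.Agent.Lib_MP_a23b08_t.T2Dat

/-!
# MP_a23b08_al, part T2: intermediate hearts
-/

open CategoryTheory CategoryTheory.Limits CategoryTheory.Triangulated
  CategoryTheory.Pretriangulated

universe v u

namespace EGr

open MPa23 ZeroObject

section
variable {D : Type u} [Category.{v} D] [Preadditive D] [HasZeroObject D] [HasShift D ℤ]
  [∀ n : ℤ, (shiftFunctor D n).Additive] [Pretriangulated D]

/-- The heart of `t` is intermediate: between the heart of `t₀` and its shift by one. -/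
structure Mid (t₀ t : TStructure D) : Prop where
  lo : ∀ X, t₀.le (-1) X → t.le 0 X
  hi : ∀ X, t.le 0 X → t₀.le 0 X

theorem Mid.refl (t₀ : TStructure D) : Mid t₀ t₀ :=
  ⟨fun _ h => t₀.le_monotone (by norm_num) _ h, fun _ h => h⟩

theorem Mid.ge {t₀ t : TStructure D} (h : Mid t₀ t) {n : ℤ} {X : D} (hX : t.ge n X) :
    t₀.ge (n - 1) X := by
  rw [t₀.ge_iff_isGE, t₀.isGE_iff_orthogonal (n - 2) (n - 1) (by omega)]
  intro Y f hY
  rw [t.ge_iff_isGE] at hX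
  have h1 : t₀.le (-1) (Y⟦n - 1⟧) := t₀.le_shift (n - 2) (n - 1) (-1) (by omega) _ hY.le
  have h2 := h.lo _ h1
  rw [t.le_iff_isLE, t.isLE_shift_iff Y (n - 1) (n - 1) 0 (by omega)] at h2
  exact t.zero f (n - 1) n (by omega)

theorem Mid.ge' {t₀ t : TStructure D} (h : Mid t₀ t) {n : ℤ} {X : D} (hX : t₀.ge n X) :
    t.ge n X := by
  rw [t.ge_iff_isGE, t.isGE_iff_orthogonal (n - 1) n (by omega)]
  intro Y f hY
  rw [t₀.ge_iff_isGE] at hX
  have h1 : t.le 0 (Y⟦n - 1⟧) := t.le_shift (n - 1) (n - 1) 0 (by omega) _ hY.le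
  have h2 := h.hi _ h1
  rw [t₀.le_iff_isLE, t₀.isLE_shift_iff Y (n - 1) (n - 1) 0 (by omega)] at h2
  exact t₀.zero f (n - 1) n (by omega)

/-- A simple object of an intermediate heart is in the heart of `t₀` or in its shift by one. -/
theorem Mid.simple {t₀ t : TStructure D} (h : Mid t₀ t) {S : D} (hS : SimpleIn t S) :
    t₀.heart S ∨ t₀.heart (S⟦(-1 : ℤ)⟧) := by
  obtain ⟨A, B, hA, hB, f, g, w, hT⟩ := t₀.exists_triangle S (-1) 0 (by norm_num)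
  have hS0 : t.IsLE S 0 := ⟨hS.1.1⟩
  have hS1 : t.IsGE S 0 := ⟨hS.1.2⟩
  have iA : t₀.IsLE A (-1) := ⟨hA⟩
  have iB : t₀.IsGE B 0 := ⟨hB⟩
  have iS : t₀.IsLE S 0 := ⟨h.hi _ hS.1.1⟩
  have jS : t₀.IsGE S (-1) := ⟨h.ge hS.1.2⟩
  -- `B` is in the aisle of `t`
  have hB1 : t.IsLE B 0 := by
    rw [t.isLE_iff_orthogonal 0 1 (by norm_num)]
    intro Y φ hY
    have hY0 : t₀.IsGE Y 0 := ⟨by simpa using h.ge hY.ge⟩
    obtain ⟨ψ, hψ⟩ := Triangle.yoneda_exact₃ _ hT φ (t.zero (X := S) _ 0 1 (by norm_num))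
    have : t₀.IsLE (A⟦(1 : ℤ)⟧) (-2) := t₀.isLE_shift A (-1) 1 (-2) (by norm_num)
    have h0 : ψ = 0 := t₀.zero (X := A⟦(1 : ℤ)⟧) ψ (-2) 0 (by norm_num)
    rw [hψ, h0]
    exact comp_zero
  have hB2 : t.IsGE B 0 := ⟨h.ge' hB⟩
  have hA1 : t.IsLE A 0 := ⟨h.lo _ hA⟩
  have hA2 : t.IsGE A 0 := by
    rw [t.isGE_iff_orthogonal (-1) 0 (by norm_num)]
    intro Y φ hY
    have hY0 : t₀.IsLE Y (-1) := by
      have h1 : t.le 0 (Y⟦(-1 : ℤ)⟧) := t.le_shift (-1) (-1) 0 (by norm_num) _ hY.le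
      have h2 := h.hi _ h1
      rw [t₀.le_iff_isLE, t₀.isLE_shift_iff Y (-1) (-1) 0 (by norm_num)] at h2
      exact h2
    have hT' := inv_rot_of_distTriang _ hT
    obtain ⟨ψ, hψ⟩ := Triangle.coyoneda_exact₂ _ hT' φ (t.zero (Y := S) _ (-1) 0 (by norm_num))
    have : t₀.IsGE (B⟦(-1 : ℤ)⟧) 1 := t₀.isGE_shift B 0 (-1) 1 (by norm_num)
    have h0 : ψ = 0 := t₀.zero (Y := B⟦(-1 : ℤ)⟧) ψ (-1) 1 (by norm_num)
    rw [hψ, h0]
    exact zero_comp
  rcases hS.2.2 A B f g w hT ⟨hA1.le, hA2.ge⟩ ⟨hB1.le, hB2.ge⟩ with h0 | h0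
  · left
    have : IsIso g := (Triangle.isZero₁_iff_isIso₂ _ hT).1 h0
    exact ⟨iS.le, (t₀.ge 0).prop_of_iso (asIso g).symm hB⟩
  · right
    have : IsIso f := (Triangle.isZero₃_iff_isIso₁ _ hT).1 h0
    have h1 : t₀.IsLE S (-1) := ⟨(t₀.le (-1)).prop_of_iso (asIso f) hA⟩
    exact ⟨(t₀.isLE_shift S (-1) (-1) 0 (by norm_num)).le,
      (t₀.isGE_shift S (-1) (-1) 0 (by norm_num)).ge⟩

/-- An intermediate heart stays intermediate after a forward tilt at a simple in the heart of `t₀`. -/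
theorem Mid.tilt (hL : LeStmt D) {t₀ t t' : TStructure D} (h : Mid t₀ t) {S : D}
    (ht : IsFiniteHeart t) (ht' : IsFiniteHeart t') (hS : IsFwdTilt t S t')
    (hS0 : t₀.heart S) : Mid t₀ t' := by
  refine ⟨fun X hX => ?_, fun X hX => ?_⟩
  · rw [hL t t' S ht ht' hS]
    refine ⟨h.lo _ hX, fun f => ?_⟩
    have : t₀.IsLE X (-1) := ⟨hX⟩
    have : t₀.IsGE S 0 := ⟨hS0.2⟩
    exact t₀.zero f (-1) 0 (by norm_num)
  · rw [hL t t' S ht ht' hS] at hX
    exact h.hi _ hX.1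

variable {cls : D → Fin 6 → ℤ}

/-- Classes of objects of the heart of `t₀`. -/
theorem cls_heart (hcls : IsAdd cls) {t₀ : TStructure D} (ht₀ : IsFiniteHeart t₀)
    (hpos : ∀ S, SimpleIn t₀ S → (∀ b, 0 ≤ cls S b) ∧ ∃ b, 0 < cls S b) {X : D}
    (hX : t₀.heart X) : (∀ b, 0 ≤ cls X b) ∧ (¬ IsZero X → ∃ b, 0 < cls X b) := by
  have key : ∀ Y : D, Filt (SimpleIn t₀) Y →
      (∀ b, 0 ≤ cls Y b) ∧ (¬ IsZero Y → ∃ b, 0 < cls Y b) := by
    intro Y hY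
    induction hY with
    | zero Z hZ => exact ⟨fun b => by rw [hcls.zero hZ]; rfl, fun h => absurd hZ h⟩
    | ext A Z B f g w hT hA hB ih =>
      have h1 := hcls _ hT
      simp only [Triangle.mk_obj₂, Triangle.mk_obj₁, Triangle.mk_obj₃] at h1
      obtain ⟨h2, b, h3⟩ := hpos B hB
      refine ⟨fun c => ?_, fun _ => ⟨b, ?_⟩⟩
      · rw [h1]
        exact add_nonneg (ih.1 c) (h2 c)
      · rw [h1]
        exact add_pos_of_nonneg_of_pos (ih.1 b) h3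
  exact key X (ht₀.length X hX)

theorem IsAdd.shift_neg (hcls : IsAdd cls) (X : D) : cls (X⟦(-1 : ℤ)⟧) = - cls X := by
  have e : (X⟦(-1 : ℤ)⟧)⟦(1 : ℤ)⟧ ≅ X := (shiftEquiv D (1 : ℤ)).counitIso.app X
  have h1 := hcls.shift (X⟦(-1 : ℤ)⟧)
  rw [hcls.iso e] at h1
  rw [h1, neg_neg]

/-- A simple object with a non-negative class of an intermediate heart is in the heart of `t₀`. -/
theorem Mid.green (hcls : IsAdd cls) {t₀ t : TStructure D} (ht₀ : IsFiniteHeart t₀)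
    (hpos : ∀ S, SimpleIn t₀ S → (∀ b, 0 ≤ cls S b) ∧ ∃ b, 0 < cls S b) (h : Mid t₀ t) {S : D}
    (hS : SimpleIn t S) (hc : ∀ b, 0 ≤ cls S b) : t₀.heart S := by
  rcases h.simple hS with h1 | h1
  · exact h1
  · exfalso
    have hne : ¬ IsZero (S⟦(-1 : ℤ)⟧) := by
      intro h0
      apply hS.2.1
      rw [IsZero.iff_id_eq_zero] at h0 ⊢
      apply (shiftFunctor D (-1 : ℤ)).map_injective
      rw [CategoryTheory.Functor.map_id, h0, CategoryTheory.Functor.map_zero]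
    obtain ⟨b, hb⟩ := (cls_heart hcls ht₀ hpos h1).2 hne
    rw [hcls.shift_neg] at hb
    have := hc b
    simp only [Pi.neg_apply] at hb
    omega

/-- A simple object with a negative coordinate of an intermediate heart is in the shifted heart. -/
theorem Mid.red (hcls : IsAdd cls) {t₀ t : TStructure D} (ht₀ : IsFiniteHeart t₀)
    (hpos : ∀ S, SimpleIn t₀ S → (∀ b, 0 ≤ cls S b) ∧ ∃ b, 0 < cls S b) (h : Mid t₀ t) {S : D}
    (hS : SimpleIn t S) (hc : ∃ b, cls S b < 0) : t₀.le (-1) S := by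
  rcases h.simple hS with h1 | h1
  · exfalso
    obtain ⟨b, hb⟩ := hc
    have := (cls_heart hcls ht₀ hpos h1).1 b
    omega
  · have := h1.1
    rw [t₀.le_iff_isLE, t₀.isLE_shift_iff S (-1) (-1) 0 (by norm_num)] at this
    exact this.le

/-- If all simples of an intermediate heart are in the shifted heart, then its aisle is the shifted
aisle. -/
theorem Mid.last {t₀ t : TStructure D} (ht : IsFiniteHeart t) (h : Mid t₀ t)
    (hS : ∀ S, SimpleIn t S → t₀.le (-1) S) (X : D) : t.le 0 X ↔ t₀.le (-1) X := by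
  refine ⟨fun hX => ?_, fun hX => h.lo _ hX⟩
  -- the heart of `t` is in `t₀.le (-1)`
  have h1 : ∀ Y, t.heart Y → t₀.le (-1) Y := by
    intro Y hY
    have key : ∀ Z, Filt (SimpleIn t) Z → t₀.IsLE Z (-1) := by
      intro Z hZ
      induction hZ with
      | zero Z hZ => exact t₀.isLE_of_isZero hZ _
      | ext A Z B f g w hT hA hB ih => exact t₀.isLE₂ _ hT (-1) ih ⟨hS B hB⟩
    exact (key Y (ht.length Y hY)).le
  -- induction on the length of the bounded interval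
  have h2 : ∀ (m : ℕ) (Y : D), t.le 0 Y → t.ge (-(m : ℤ)) Y → t₀.IsLE Y (-1) := by
    intro m
    induction m with
    | zero =>
      intro Y hY hY'
      exact ⟨h1 Y ⟨hY, by simpa using hY'⟩⟩
    | succ m ih =>
      intro Y hY hY'
      obtain ⟨A, B, hA, hB, f, g, w, hT⟩ :=
        t.exists_triangle Y (-((m : ℤ) + 1)) (-(m : ℤ)) (by ring)
      have iY : t.IsLE Y 0 := ⟨hY⟩
      have jY : t.IsGE Y (-((m : ℤ) + 1)) := ⟨by simpa using hY'⟩
      have iA : t.IsLE A (-((m : ℤ) + 1)) := ⟨hA⟩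
      have iB : t.IsGE B (-(m : ℤ)) := ⟨hB⟩
      have jB : t.IsLE B 0 := by
        have : t.IsLE (A⟦(1 : ℤ)⟧) (-((m : ℤ) + 1) - 1) :=
          t.isLE_shift A (-((m : ℤ) + 1)) 1 _ (by ring)
        have h3 : t.IsLE (A⟦(1 : ℤ)⟧) 0 := t.isLE_of_le _ (-((m : ℤ) + 1) - 1) 0 (by omega)
        exact t.isLE₂ _ (rot_of_distTriang _ hT) 0 iY h3
      have jA : t.IsGE A (-((m : ℤ) + 1)) := by
        have : t.IsGE (B⟦(-1 : ℤ)⟧) (-(m : ℤ) + 1) := t.isGE_shift B (-(m : ℤ)) (-1) _ (by ring)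
        have h3 : t.IsGE (B⟦(-1 : ℤ)⟧) (-((m : ℤ) + 1)) :=
          t.isGE_of_ge _ (-((m : ℤ) + 1)) (-(m : ℤ) + 1) (by omega)
        exact t.isGE₂ _ (inv_rot_of_distTriang _ hT) _ h3 jY
      have hB' : t₀.IsLE B (-1) := ih B jB.le iB.ge
      have hA' : t₀.IsLE A (-1) := by
        have e1 : t.heart (A⟦(-((m : ℤ) + 1))⟧) :=
          ⟨(t.isLE_shift A (-((m : ℤ) + 1)) (-((m : ℤ) + 1)) 0 (by ring)).le,
            (t.isGE_shift A (-((m : ℤ) + 1)) (-((m : ℤ) + 1)) 0 (by ring)).ge⟩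
        have e2 : t₀.IsLE (A⟦(-((m : ℤ) + 1))⟧) (-1) := ⟨h1 _ e1⟩
        have e3 : t₀.IsLE A (-1 + (-((m : ℤ) + 1))) :=
          t₀.isLE_of_shift A _ (-((m : ℤ) + 1)) (-1) (by ring)
        exact t₀.isLE_of_le _ (-1 + (-((m : ℤ) + 1))) (-1) (by omega)
      exact t₀.isLE₂ _ hT (-1) hA' hB'
  obtain ⟨a, b, ha, hb⟩ := ht.bounded X
  have ha' : t.ge (-((a.natAbs : ℕ) : ℤ)) X := t.ge_antitone (by omega) _ ha
  exact (h2 a.natAbs X hX ha').le

end

end EGr
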