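import Pool.Agent.Lib_MP_a23b08_t.T3
import Pool.Agent.Lib_MP_a23b08_t.T2Int

/-!
# T3: generation by a heart, Schur's lemma, and the Euler form of two simples (`EulerStmt`)
-/

open CategoryTheory CategoryTheory.Limits CategoryTheory.Triangulated
  CategoryTheory.Pretriangulated ZeroObject

set_option linter.unusedSectionVars false

universe v u

namespace EGr

section

variable {D : Type u} [Category.{v} D] [Preadditive D] [HasZeroObject D] [HasShift D ℤ]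
  [∀ n : ℤ, (shiftFunctor D n).Additive] [Pretriangulated D]

theorem AddCl.of_shift {M : Type*} [AddCommGroup M] {cl : D → M} (hcl : AddCl cl) {X : D} (m : ℤ)
    (h : cl (X⟦m⟧) = 0) : cl X = 0 := by
  have h1 := hcl.shift_eq_zero h (-m)
  have h2 : cl X = cl ((X⟦m⟧)⟦-m⟧) := hcl.iso ((shiftEquiv D m).unitIso.app X)
  rw [h2, h1]

/-- An additive function which vanishes on the heart vanishes on all bounded objects. -/
theorem AddCl.eq_zero_of_heart {M : Type*} [AddCommGroup M] {cl : D → M} (hcl : AddCl cl)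
    (t : TStructure D) (h : ∀ X, t.heart X → cl X = 0) :
    ∀ (n : ℕ) (a b : ℤ) (X : D), t.ge a X → t.le b X → b - a < n → cl X = 0 := by
  intro n
  induction n with
  | zero =>
    intro a b X hX hX' hab
    have : t.IsGE X a := ⟨hX⟩
    have : t.IsLE X b := ⟨hX'⟩
    exact hcl.of_isZero (t.isZero X b a (by push_cast at hab; omega))
  | succ n ih =>
    intro a b X hX hX' hab
    have hXa : t.IsGE X a := ⟨hX⟩
    have hXb : t.IsLE X b := ⟨hX'⟩
    rcases lt_or_ge b a with hba | hba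
    · exact hcl.of_isZero (t.isZero X b a hba)
    · obtain ⟨X', X'', h1, h2, f, g, i, hT⟩ := t.exists_triangle X (b - 1) b (by ring)
      have hX'1 : t.IsLE X' (b - 1) := ⟨h1⟩
      have hX''1 : t.IsGE X'' b := ⟨h2⟩
      have hs1 : t.IsLE (X'⟦(1 : ℤ)⟧) b := by
        have := t.isLE_shift X' (b - 1) 1 (b - 2) (by ring)
        exact t.isLE_of_le _ (b - 2) b (by omega)
      have hs2 : t.IsGE (X''⟦(-1 : ℤ)⟧) a := by
        have := t.isGE_shift X'' b (-1) (b + 1) (by ring)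
        exact t.isGE_of_ge _ a (b + 1) (by omega)
      have h3 : t.IsLE X'' b := t.isLE₂ _ (rot_of_distTriang _ hT) b hXb hs1
      have h4 : t.IsGE X' a := t.isGE₂ _ (inv_rot_of_distTriang _ hT) a hs2 hXa
      have e1 : cl X' = 0 := ih a (b - 1) X' h4.ge h1 (by push_cast at hab ⊢; omega)
      have e2 : cl X'' = 0 := by
        apply hcl.of_shift b
        apply h
        rw [TStructure.mem_heart_iff]
        exact ⟨t.isLE_shift X'' b b 0 (by ring), t.isGE_shift X'' b b 0 (by ring)⟩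
      rw [hcl _ _ _ _ _ _ hT, e1, e2, add_zero]

/-- The simples of a finite heart generate. -/
theorem gen_of_heart {t : TStructure D} (ht : IsFiniteHeart t) {n : ℕ} {X : Fin n → D}
    (hX : SList t X) : Gen X := by
  intro cl hcl h0 Y
  obtain ⟨a, b, ha, hb⟩ := ht.bounded Y
  refine hcl.eq_zero_of_heart t ?_ (b - a + 1).toNat a b Y ha hb (by omega)
  intro Z hZ
  have hF := ht.length Z hZ
  clear hZ
  induction hF with
  | zero Z hZ => exact hcl.of_isZero hZ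
  | ext A Z B f g h hT _ hB ih =>
    obtain ⟨j, ⟨e⟩⟩ := hX.all B hB
    rw [hcl _ _ _ _ _ _ hT, hcl.iso e, h0 j, add_zero]
    exact ih

/-- Every morphism of the heart is admissible. -/
theorem heart_admissible (t : TStructure D) :
    AbelianSubcategory.admissibleMorphism t.heart.ι = ⊤ := by
  ext X₁ X₂ f₁
  simp only [MorphismProperty.top_apply, iff_true]
  intro X₃ f₂ f₃ hT
  obtain ⟨a1, a2⟩ := (t.mem_heart_iff X₁.obj).1 X₁.2
  obtain ⟨b1, b2⟩ := (t.mem_heart_iff X₂.obj).1 X₂.2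
  obtain ⟨X', Q, h1, h2, f, g, i, hT'⟩ := t.exists_triangle X₃ (-1) 0 (by ring)
  have hX'1 : t.IsLE X' (-1) := ⟨h1⟩
  have hQ1 : t.IsGE Q 0 := ⟨h2⟩
  have hs : t.IsGE ((X₁.obj)⟦(1 : ℤ)⟧) (-1) := t.isGE_shift X₁.obj 0 1 (-1) (by ring)
  have hs' : t.IsLE ((X₁.obj)⟦(1 : ℤ)⟧) (-1) := t.isLE_shift X₁.obj 0 1 (-1) (by ring)
  have hs3 : t.IsLE ((X₁.obj)⟦(1 : ℤ)⟧) 0 := t.isLE_of_le _ (-1) 0 (by omega)
  have hs4 : t.IsGE X₂.obj (-1) := t.isGE_of_ge _ (-1) 0 (by omega)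
  have h3 : t.IsLE X₃ 0 := t.isLE₂ _ (rot_of_distTriang _ hT) 0 b1 hs3
  have h4 : t.IsGE X₃ (-1) := t.isGE₂ _ (rot_of_distTriang _ hT) (-1) hs4 hs
  have hs1 : t.IsLE (X'⟦(1 : ℤ)⟧) 0 := by
    have := t.isLE_shift X' (-1) 1 (-2) (by ring)
    exact t.isLE_of_le _ (-2) 0 (by omega)
  have hs2 : t.IsGE (Q⟦(-1 : ℤ)⟧) (-1) := by
    have := t.isGE_shift Q 0 (-1) 1 (by ring)
    exact t.isGE_of_ge _ (-1) 1 (by omega)
  have h5 : t.IsLE Q 0 := t.isLE₂ _ (rot_of_distTriang _ hT') 0 h3 hs1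
  have h6 : t.IsGE X' (-1) := t.isGE₂ _ (inv_rot_of_distTriang _ hT') (-1) hs2 h4
  have hK : t.heart (X'⟦(-1 : ℤ)⟧) := by
    rw [t.mem_heart_iff]
    exact ⟨t.isLE_shift X' (-1) (-1) 0 (by ring), t.isGE_shift X' (-1) (-1) 0 (by ring)⟩
  have hQ : t.heart Q := by
    rw [t.mem_heart_iff]; exact ⟨h5, hQ1⟩
  let e : (X'⟦(-1 : ℤ)⟧)⟦(1 : ℤ)⟧ ≅ X' := (shiftEquiv D (1 : ℤ)).counitIso.app X'
  refine ⟨⟨X'⟦(-1 : ℤ)⟧, hK⟩, ⟨Q, hQ⟩, e.hom ≫ f, g, i ≫ e.inv⟦(1 : ℤ)⟧', ?_⟩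
  refine isomorphic_distinguished _ hT' _ ?_
  refine Triangle.isoMk _ _ e (Iso.refl _) (Iso.refl _) ?_ ?_ ?_
  · change (e.hom ≫ f) ≫ 𝟙 _ = e.hom ≫ f
    simp
  · change g ≫ 𝟙 _ = 𝟙 _ ≫ g
    simp
  · change (i ≫ e.inv⟦(1 : ℤ)⟧') ≫ e.hom⟦(1 : ℤ)⟧' = 𝟙 _ ≫ i
    rw [Category.assoc, ← Functor.map_comp, e.inv_hom_id]
    simp

/-- There are no negative extensions in the heart. -/
theorem heart_neg (t : TStructure D) ⦃X Y : t.heart.FullSubcategory⦄ ⦃n : ℤ⦄
    (f : t.heart.ι.obj X ⟶ (t.heart.ι.obj Y)⟦n⟧) (hn : n < 0) : f = 0 := by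
  obtain ⟨a1, a2⟩ := (t.mem_heart_iff X.obj).1 X.2
  obtain ⟨b1, b2⟩ := (t.mem_heart_iff Y.obj).1 Y.2
  have h : t.IsGE ((Y.obj)⟦n⟧) (-n) := t.isGE_shift Y.obj 0 n (-n) (by ring)
  have h' : t.IsGE ((t.heart.ι.obj Y)⟦n⟧) (-n) := h
  have h'' : t.IsLE (t.heart.ι.obj X) 0 := a1
  exact t.zero f 0 (-n) (by omega)

/-- Schur's lemma. -/
theorem schur {t : TStructure D} {S T : D} (hS : SimpleIn t S)
    (hT : SimpleIn t T) (f : S ⟶ T) (hf : f ≠ 0) : IsIso f := by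
  let S' : t.heart.FullSubcategory := ⟨S, hS.1⟩
  let T' : t.heart.FullSubcategory := ⟨T, hT.1⟩
  let f' : S' ⟶ T' := t.heart.ι.preimage (X := S') (Y := T') f
  have hff : t.heart.ι.map f' = f := t.heart.ι.map_preimage _
  obtain ⟨X₃, f₂, f₃, hTr⟩ := distinguished_cocone_triangle f
  have hTr' : Triangle.mk (t.heart.ι.map f') f₂ f₃ ∈ distTriang D := by
    rw [hff]; exact hTr
  have adm : AbelianSubcategory.admissibleMorphism t.heart.ι f' := by
    rw [heart_admissible]; trivial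
  obtain ⟨K, Q, α, β, γ, hT'⟩ := adm f₂ f₃ hTr'
  let πq : T' ⟶ Q := AbelianSubcategory.πQ (ι := t.heart.ι) (X₂ := T') f₂ β
  have hepi : Epi πq := AbelianSubcategory.epi_πQ (heart_neg t) hTr' hT'
  obtain ⟨I, i, δ, hI⟩ := AbelianSubcategory.exists_distinguished_triangle_of_epi
    (heart_neg t) (heart_admissible t) πq
  have hQ : IsZero Q.obj := by
    rcases hT.2.2 I.obj Q.obj _ _ _ hI I.2 Q.2 with h | h
    · exfalso
      apply hf
      have hiso : IsIso (t.heart.ι.map πq) := (Triangle.isZero₁_iff_isIso₂ _ hI).1 h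
      have hz : f ≫ t.heart.ι.map πq = 0 := by
        have h1 : f' ≫ πq = 0 := AbelianSubcategory.mor₁_πQ hTr' β
        rw [← hff, ← Functor.map_comp, h1, Functor.map_zero]
      rw [← cancel_mono (t.heart.ι.map πq), hz, zero_comp]
    · exact h
  have hα : IsIso α := (Triangle.isZero₃_iff_isIso₁ _ hT').1 hQ
  let e : K.obj ≅ X₃⟦(-1 : ℤ)⟧ :=
    (shiftEquiv D (1 : ℤ)).unitIso.app K.obj ≪≫ (shiftFunctor D (-1 : ℤ)).mapIso
      (@asIso _ _ _ _ α hα)
  have hh : t.heart (X₃⟦(-1 : ℤ)⟧) := t.heart.prop_of_iso e K.2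
  have hz : IsZero (X₃⟦(-1 : ℤ)⟧) := by
    rcases hS.2.2 _ _ _ _ _ (inv_rot_of_distTriang _ hTr) hh hT.1 with h | h
    · exact h
    · exact absurd h hT.2.1
  have hX₃ : IsZero X₃ := by
    have h1 : IsZero ((X₃⟦(-1 : ℤ)⟧)⟦(1 : ℤ)⟧) := (shiftFunctor D (1 : ℤ)).map_isZero hz
    exact h1.of_iso ((shiftEquiv D (1 : ℤ)).counitIso.app X₃).symm
  exact (Triangle.isZero₃_iff_isIso₁ _ hTr).1 hX₃

end

section

variable {k : Type} [Field k] {D : Type u} [Category.{v} D] [Preadditive D] [HasZeroObject D]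
  [HasShift D ℤ] [∀ n : ℤ, (shiftFunctor D n).Additive] [Pretriangulated D] [Linear k D]

theorem hd_neg_of_heart {t : TStructure D} {X Y : D} (hX : t.heart X) (hY : t.heart Y) (n : ℤ)
    (hn : n < 0) : hd k X Y n = 0 := by
  have : Subsingleton (X ⟶ Y⟦n⟧) :=
    ⟨fun a b => by
      rw [heart_neg t (X := ⟨X, hX⟩) (Y := ⟨Y, hY⟩) (n := n) a hn,
        heart_neg t (X := ⟨X, hX⟩) (Y := ⟨Y, hY⟩) (n := n) b hn]⟩
  exact Module.finrank_zero_of_subsingleton

theorem hd_zero_of_simple {t : TStructure D} {S T : D} (hS : SimpleIn t S) (hT : SimpleIn t T)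
    (h : IsEmpty (S ≅ T)) : hd k S T 0 = 0 := by
  have : Subsingleton (S ⟶ T⟦(0 : ℤ)⟧) := by
    have h0 : ∀ f : S ⟶ T⟦(0 : ℤ)⟧, f = 0 := by
      intro f
      by_contra hf
      have hf' : f ≫ (shiftFunctorZero D ℤ).hom.app T ≠ 0 := by
        intro h0
        apply hf
        rw [← cancel_mono ((shiftFunctorZero D ℤ).hom.app T), h0, zero_comp]
      have := schur hS hT _ hf'
      exact h.elim (asIso (f ≫ (shiftFunctorZero D ℤ).hom.app T))
    exact ⟨fun a b => by rw [h0 a, h0 b]⟩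
  exact Module.finrank_zero_of_subsingleton

/-- The 3-Calabi-Yau property with the finiteness of `{n | Hom(X, Y[n]) ≠ 0}`. -/
theorem isCY3_of_bounded (hCY : CY3 k D) {t : TStructure D} (ht : IsFiniteHeart t) :
    IsCY3 k D where
  fin := hCY.fin
  cy := hCY.cy
  bdd := by
    have key : ∀ X Y : D, ∃ N : ℤ, ∀ n : ℤ, n < N → hd k X Y n = 0 := by
      intro X Y
      obtain ⟨a1, b1, ha1, hb1⟩ := ht.bounded X
      obtain ⟨a2, b2, ha2, hb2⟩ := ht.bounded Y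
      refine ⟨a2 - b1, fun n hn => ?_⟩
      have h1 : t.IsLE X b1 := ⟨hb1⟩
      have h2 : t.IsGE Y a2 := ⟨ha2⟩
      have h3 : t.IsGE (Y⟦n⟧) (a2 - n) := t.isGE_shift Y a2 n (a2 - n) (by ring)
      have : Subsingleton (X ⟶ Y⟦n⟧) :=
        ⟨fun a b => by
          rw [t.zero a b1 (a2 - n) (by omega), t.zero b b1 (a2 - n) (by omega)]⟩
      exact Module.finrank_zero_of_subsingleton
    intro X Y
    obtain ⟨N, hN⟩ := key X Y
    obtain ⟨N', hN'⟩ := key Y X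
    refine (Set.finite_Icc N (3 - N')).subset ?_
    intro n hn
    simp only [Set.mem_ofPred_eq] at hn
    rw [Set.mem_Icc]
    constructor
    · by_contra h
      exact hn (hN n (by omega))
    · by_contra h
      apply hn
      have : hd k X Y n = hd k Y X (3 - n) := hCY.cy X Y n
      rw [this]
      exact hN' _ (by omega)

/-- T3: the Euler form in terms of classes. -/
theorem eulerStmt (hCY : CY3 k D) {t₀ : TStructure D} (ht₀ : IsFiniteHeart t₀) (S₀ : Fin 6 → D)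
    (hS₀ : SList t₀ S₀) (cls : D → Fin 6 → ℤ) (hcls : IsAdd cls)
    (hcS : ∀ i, cls (S₀ i) = Pi.single i 1)
    (hB : ∀ i j, (Module.finrank k (S₀ i ⟶ (S₀ j)⟦(1 : ℤ)⟧) : ℤ) = max (MPa23.B0 i j) 0) :
    EulerStmt k D cls := by
  have hC := isCY3_of_bounded hCY ht₀
  have hcls' : AddCl cls := fun A B C f g h hT => hcls _ hT
  have hskew : ∀ a b, MPa23.B0 a b = - MPa23.B0 b a := by decide +kernel
  intro t ht S T hS hT
  have h1 := ext_sub hC S₀ (gen_of_heart ht₀ hS₀)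
    (fun a b m hm => hd_neg_of_heart (hS₀.simple a).1 (hS₀.simple b).1 m hm)
    (fun a b hab => hd_zero_of_simple (hS₀.simple a) (hS₀.simple b)
      ⟨fun e => hab (hS₀.inj a b ⟨e⟩)⟩) hcls' hcS MPa23.B0
    (fun a b => by
      have e1 := hB a b
      have e2 := hB b a
      have e3 := hskew a b
      unfold hd
      rw [e1, e2, e3]
      omega) (X := S) (Y := T)
    (fun m hm => hd_neg_of_heart hS.1 hT.1 m hm) (fun m hm => hd_neg_of_heart hT.1 hS.1 m hm)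
    (by
      by_cases he : Nonempty (S ≅ T)
      · obtain ⟨e⟩ := he
        rw [hd_congr_right e.symm 0, hd_congr_left e.symm 0]
      · have he' : IsEmpty (S ≅ T) := not_nonempty_iff.1 he
        rw [hd_zero_of_simple hS hT he', hd_zero_of_simple hT hS ⟨fun e => he ⟨e.symm⟩⟩])
  exact h1

end

end EGr
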