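import Pool.Agent.Lib_MP_a23b08_t.T2Main
import Pool.Agent.Lib_MP_a23b08_t.T3Euler
import Pool.Agent.Lib_MP_a23b08_t1.Main

/-!
# MP_a23b08_al, part T: the abstract theorem
-/

open CategoryTheory CategoryTheory.Limits CategoryTheory.Triangulated
  CategoryTheory.Pretriangulated

universe v u

namespace EGr

/-- THEOREM T. Let `D` be a Hom-finite triangulated category over an algebraically closed field `k`,
3-Calabi–Yau on the level of dimensions, `cls` an additive function, `t₀` a bounded t-structure with a
finite heart whose simple objects are `S 0, …, S 5`, with classes the standard basis and with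
`Ext¹`-quiver the quiver of `B0`. If no heart of the component of `t₀` has a loop or a 2-cycle in its
`Ext¹`-quiver, then the exchange groupoid of `t₀` is not simply connected. -/
theorem theoremT (k : Type) [Field k] [IsAlgClosed k] {D : Type u} [Category.{v} D]
    [Preadditive D] [HasZeroObject D] [HasShift D ℤ] [∀ n : ℤ, (shiftFunctor D n).Additive]
    [Pretriangulated D] [IsTriangulated D] [Linear k D] (hC : CY3 k D) {cls : D → Fin 6 → ℤ}
    (hcls : IsAdd cls) {t₀ : TStructure D} (h₀ : IsFiniteHeart t₀) {S : Fin 6 → D}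
    (hS : SList t₀ S) (hS1 : ∀ i j, cls (S i) j = if i = j then 1 else 0)
    (hext : ∀ i j, (Module.finrank k (S i ⟶ (S j)⟦(1 : ℤ)⟧) : ℤ) = max (MPa23.B0 i j) 0)
    (hnd : ∀ a : Vertex t₀, NonDeg a.t) : ¬ SimplyConnected k t₀ :=
  theoremT_of (tiltStmt k D hC.fin) leStmt hcls (eulerStmt hC h₀ S hS cls hcls
    (fun i => funext fun j => by rw [hS1, Pi.single_apply]; simp only [eq_comm]) hext)
    h₀ hnd hS hS1

end EGr
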